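import Pool.Agent.H80.PK.GDefs

/-!
# Completions and K-theory of Banach algebras without unit

Definitions for the board `pkt` (MP_70b9d9_an).
-/

set_option autoImplicit false

namespace Pool.PK

open MeasureTheory Filter Topology UniformSpace

/-! ## Completions -/

/-- an algebra seminorm -/
structure ASN (C : Type) [NonUnitalRing C] [Module ℂ C] where
  N : C → ℝ
  add_le : ∀ f g, N (f + g) ≤ N f + N g
  smul_eq : ∀ (c : ℂ) f, N (c • f) = ‖c‖ * N f
  mul_le : ∀ f g, N (f * g) ≤ N f * N g

section completion

variable {C : Type} [NonUnitalRing C] [Module ℂ C]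

/-- `C` with the seminorm `s` -/
def SN (_ : ASN C) : Type := C

variable (s : ASN C)

theorem ASN.zero : s.N 0 = 0 := by
  have := s.smul_eq 0 0
  simpa using this

theorem ASN.neg (f : C) : s.N (-f) = s.N f := by
  have := s.smul_eq (-1) f
  simpa using this

theorem ASN.nonneg (f : C) : 0 ≤ s.N f := by
  have h1 := s.add_le f (-f)
  rw [add_neg_cancel, s.zero, s.neg] at h1
  linarith

instance : NonUnitalRing (SN s) := inferInstanceAs (NonUnitalRing C)
instance : Module ℂ (SN s) := inferInstanceAs (Module ℂ C)
instance : Norm (SN s) := ⟨s.N⟩

noncomputable instance : SeminormedAddCommGroup (SN s) :=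
  SeminormedAddCommGroup.ofCore (𝕜 := ℂ) (E := SN s) ⟨s.nonneg, s.smul_eq, s.add_le⟩

noncomputable instance : NonUnitalSeminormedRing (SN s) :=
  { (inferInstance : SeminormedAddCommGroup (SN s)), (inferInstance : NonUnitalRing (SN s)) with
    norm_mul_le := s.mul_le }

noncomputable instance : NormedSpace ℂ (SN s) := ⟨fun c f => (s.smul_eq c f).le⟩

/-- the completion of `C` in the seminorm `s` -/
abbrev CP (s : ASN C) : Type := Completion (SN s)

/-- the canonical map of `C` to its completion -/
noncomputable def cp (f : C) : CP s := ((show SN s from f : SN s) : Completion (SN s))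

theorem norm_sn (f : SN s) : ‖f‖ = s.N f := rfl

noncomputable instance : Mul (CP s) :=
  ⟨Function.curry <| ((Completion.isDenseInducing_coe (α := SN s)).prodMap
    (Completion.isDenseInducing_coe (α := SN s))).extend
    ((↑) ∘ Function.uncurry (fun a b : SN s => a * b))⟩

theorem coe_mul' (f g : SN s) : ((f * g : SN s) : CP s) = (f : CP s) * (g : CP s) :=
  (((Completion.isDenseInducing_coe (α := SN s)).prodMap
    (Completion.isDenseInducing_coe (α := SN s))).extend_eq
      ((Completion.continuous_coe (SN s)).comp (@continuous_mul (SN s) _ _ _)) (f, g)).symm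

instance : ContinuousMul (CP s) where
  continuous_mul := by
    let m := (AddMonoidHom.mul : SN s →+ SN s →+ SN s).compr₂ Completion.toCompl
    have : Continuous fun p : SN s × SN s => m p.1 p.2 :=
      (Completion.continuous_coe (SN s)).comp continuous_mul
    have di : IsDenseInducing (Completion.toCompl : SN s → Completion (SN s)) :=
      Completion.isDenseInducing_coe
    exact (di.extend_Z_bilin di this :)

noncomputable instance : NonUnitalNormedRing (CP s) :=
  { (inferInstance : NormedAddCommGroup (CP s)), (inferInstance : Mul (CP s)) with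
    zero_mul := fun a => Completion.induction_on a
      (isClosed_eq (continuous_const.mul continuous_id) continuous_const)
      fun f => by rw [← Completion.coe_zero, ← coe_mul', zero_mul]
    mul_zero := fun a => Completion.induction_on a
      (isClosed_eq (continuous_id.mul continuous_const) continuous_const)
      fun f => by rw [← Completion.coe_zero, ← coe_mul', mul_zero]
    mul_assoc := fun a b c => Completion.induction_on₃ a b c
      (isClosed_eq (by fun_prop) (by fun_prop))
      fun f g h => by rw [← coe_mul', ← coe_mul', ← coe_mul', ← coe_mul', mul_assoc]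
    left_distrib := fun a b c => Completion.induction_on₃ a b c
      (isClosed_eq (by fun_prop) (by fun_prop))
      fun f g h => by
        rw [← Completion.coe_add, ← coe_mul', ← coe_mul', ← coe_mul', ← Completion.coe_add, mul_add]
    right_distrib := fun a b c => Completion.induction_on₃ a b c
      (isClosed_eq (by fun_prop) (by fun_prop))
      fun f g h => by
        rw [← Completion.coe_add, ← coe_mul', ← coe_mul', ← coe_mul', ← Completion.coe_add, add_mul]
    norm_mul_le := fun a b => Completion.induction_on₂ a b
      (isClosed_le (by fun_prop) (by fun_prop))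
      fun f g => by
        rw [← coe_mul', Completion.norm_coe, Completion.norm_coe, Completion.norm_coe]
        exact s.mul_le f g
    dist_eq := NormedAddGroup.dist_eq }

section scalars

variable [IsScalarTower ℂ C C] [SMulCommClass ℂ C C]

instance : IsScalarTower ℂ (SN s) (SN s) := inferInstanceAs (IsScalarTower ℂ C C)
instance : SMulCommClass ℂ (SN s) (SN s) := inferInstanceAs (SMulCommClass ℂ C C)

instance : IsScalarTower ℂ (CP s) (CP s) :=
  ⟨fun c a b => Completion.induction_on₂
    (p := fun a b : Completion (SN s) => (c • a) * b = c • (a * b)) a b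
    (isClosed_eq ((continuous_fst.const_smul c).mul continuous_snd)
      ((continuous_fst.mul continuous_snd).const_smul c))
    fun f g => by
      rw [← coe_mul', ← Completion.coe_smul, ← Completion.coe_smul, ← coe_mul', smul_mul_assoc]⟩

instance : SMulCommClass ℂ (CP s) (CP s) :=
  ⟨fun c a b => Completion.induction_on₂
    (p := fun a b : Completion (SN s) => c • (a * b) = a * (c • b)) a b
    (isClosed_eq ((continuous_fst.mul continuous_snd).const_smul c)
      (continuous_fst.mul (continuous_snd.const_smul c)))
    fun f g => by
      rw [← coe_mul', ← Completion.coe_smul, ← Completion.coe_smul, ← coe_mul', mul_smul_comm]⟩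

end scalars

end completion

/-! ## K-theory without unit -/

/-- the unitization `ℂ ⊕ B` of a Banach algebra, norm `|λ| + ‖b‖` -/
abbrev Un (B : Type) [NonUnitalNormedRing B] [NormedSpace ℂ B] : Type := WithLp 1 (Unitization ℂ B)

section K

variable (B : Type) [NonUnitalNormedRing B] [NormedSpace ℂ B] [IsScalarTower ℂ B B]
  [SMulCommClass ℂ B B]

/-- the augmentation `(λ, b) ↦ λ` -/
noncomputable def aug : Un B →+* ℂ :=
  (Unitization.fstHom ℂ B : Unitization ℂ B →+* ℂ).comp
    (WithLp.unitizationAlgEquiv (𝕜 := ℂ) (A := B) ℂ : Un B →+* Unitization ℂ B)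

theorem aug_apply (x : Un B) : aug B x = (WithLp.ofLp x).fst := rfl

theorem aug_cont : Continuous (aug B) := by
  refine AddMonoidHomClass.continuous_of_bound (aug B) 1 fun x => ?_
  rw [aug_apply, one_mul, WithLp.unitization_norm_def]
  exact le_add_of_nonneg_right (norm_nonneg _)

/-- `K₀` of a Banach algebra: the kernel of `K₀` of its unitization to `K₀ ℂ` -/
abbrev KK0 : Type := (K0map (aug B)).ker

/-- `K₁` of a Banach algebra: the kernel of `K₁` of its unitization to `K₁ ℂ` -/
abbrev KK1 : Type := (K1map (aug B) (aug_cont B)).ker

end K

/-- the canonical map of the unitization of `C` to the unitization of the completion -/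
noncomputable def iot {C : Type} [NonUnitalRing C] [Module ℂ C] (s : ASN C) (x : Unitization ℂ C) :
    Un (CP s) :=
  WithLp.toLp 1 ((Unitization.inl x.fst : Unitization ℂ (CP s)) + Unitization.inr (cp s x.snd))

end Pool.PK
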