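import Pool.Agent.H80.PK.KStmts

/-! # Board `pkt`, row HFN -/

set_option autoImplicit false

namespace Pool.PK

open Filter Topology

theorem HFN (hCOE : COEStmt) (hSUM : SUMStmt) : HFNStmt := by
  intro A B _ _ _ _ _ _ φ x hφ hx
  obtain ⟨C, ρ, hC, hρ0, hρ1, hb⟩ := hSUM A (dev x) hx
  have hs : Summable fun k : ℕ => ((co k : ℝ) : ℂ) • (dev x) ^ k := by
    refine Summable.of_norm_bounded (g := fun k => C * ρ ^ k)
      ((summable_geometric_of_lt_one hρ0.le hρ1).mul_left C) fun k => ?_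
    have h1 : ‖((co k : ℝ) : ℂ)‖ ≤ 1 := by
      rw [Complex.norm_real, Real.norm_eq_abs, abs_of_nonneg (hCOE.1 k).1]
      exact (hCOE.1 k).2
    calc ‖((co k : ℝ) : ℂ) • (dev x) ^ k‖ = ‖((co k : ℝ) : ℂ)‖ * ‖(dev x) ^ k‖ := norm_smul _ _
      _ ≤ 1 * ‖(dev x) ^ k‖ := mul_le_mul_of_nonneg_right h1 (norm_nonneg _)
      _ = ‖(dev x) ^ k‖ := one_mul _
      _ ≤ C * ρ ^ k := hb k
  have hdev : φ (dev x) = dev (φ x) := by
    unfold dev
    rw [map_mul, map_mul, map_sub, map_one, map_ofNat]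
  have ht : φ (∑' k : ℕ, ((co k : ℝ) : ℂ) • (dev x) ^ k) =
      ∑' k : ℕ, ((co k : ℝ) : ℂ) • (dev (φ x)) ^ k := by
    have h1 := (hs.hasSum.map φ hφ).tsum_eq
    rw [← h1]
    refine tsum_congr fun k => ?_
    rw [Function.comp_apply, map_smul, map_pow, hdev]
  unfold hfc
  rw [map_smul, map_add, map_one, map_mul, map_sub, map_mul, map_one, map_ofNat, ht]

end Pool.PK
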