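import Pool.Agent.H80.PK.KStmts

/-! Row INV of the board `pkt` (helper17). -/

set_option autoImplicit false

namespace Pool.PK

open Filter Topology

/-- if the powers of `z` tend to zero then `1 - z` is a unit -/
lemma isUnit_one_sub_of_tendsto {A : Type} [NormedRing A] [CompleteSpace A] {z : A}
    (hz : Tendsto (fun k : ℕ => z ^ k) atTop (𝓝 0)) : IsUnit (1 - z) := by
  have h1 : ∀ᶠ k : ℕ in atTop, ‖z ^ k‖ < 1 := by
    have h2 := hz.norm
    rw [norm_zero] at h2
    exact h2.eventually_lt_const one_pos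
  obtain ⟨k, hk⟩ := h1.exists
  have h3 : IsUnit (1 - z ^ k) := isUnit_one_sub_of_norm_lt_one hk
  have h4 : Commute (1 - z) (∑ i ∈ Finset.range k, z ^ i) := by
    refine Commute.sum_right _ _ _ (fun i _ => ?_)
    exact ((Commute.one_left _).sub_left ((Commute.refl z).pow_right i))
  rw [← mul_neg_geom_sum] at h3
  exact (h4.isUnit_mul_iff.mp h3).1

theorem INV : INVStmt := by
  intro A B U _ _ _ _ _ _ _ _ ι φ hRS x hx
  obtain ⟨hc, hd1, hd2, hsp⟩ := hRS
  obtain ⟨u, hu⟩ := hx
  -- open condition on the approximate inverse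
  have hopen : IsOpen {w : B | ‖1 - φ (ι x) * w‖ < 1 ∧ ‖1 - w * φ (ι x)‖ < 1} := by
    refine IsOpen.and ?_ ?_
    · exact isOpen_lt (by fun_prop) continuous_const
    · exact isOpen_lt (by fun_prop) continuous_const
  obtain ⟨y, hy1, hy2⟩ := hd2.exists_mem_open hopen ⟨(↑u⁻¹ : B), by
    refine ⟨?_, ?_⟩
    · rw [← hu, Units.mul_inv, sub_self, norm_zero]
      exact one_pos
    · rw [← hu, Units.inv_mul, sub_self, norm_zero]
      exact one_pos⟩
  have key : ∀ w : U, ‖1 - φ (ι w)‖ < 1 → IsUnit (ι w) := by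
    intro w hw
    have h1 : Tendsto (fun k : ℕ => (φ (ι (1 - w))) ^ k) atTop (𝓝 0) := by
      apply tendsto_pow_atTop_nhds_zero_of_norm_lt_one
      rw [map_sub, map_sub, map_one, map_one]
      exact hw
    have h2 := isUnit_one_sub_of_tendsto (hsp (1 - w) h1)
    rw [map_sub, map_one, sub_sub_cancel] at h2
    exact h2
  have k1 := key (x * y) (by rw [map_mul, map_mul]; exact hy1)
  have k2 := key (y * x) (by rw [map_mul, map_mul]; exact hy2)
  rw [map_mul] at k1 k2
  obtain ⟨r, hr⟩ := k1.exists_right_inv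
  obtain ⟨l, hl⟩ := k2.exists_left_inv
  rw [isUnit_iff_exists_and_exists]
  refine ⟨⟨ι y * r, ?_⟩, ⟨l * ι y, ?_⟩⟩
  · rw [← mul_assoc]
    exact hr
  · rw [mul_assoc]
    exact hl

end Pool.PK
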