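import Pool.Agent.H80.PK.KStmts

/-! Row K1S of the board `pkt` (helper17). -/

set_option autoImplicit false

namespace Pool.PK

open Filter Topology

theorem K1S (h1 : INVStmt) : K1SStmt := by
  intro A B U _ _ _ _ _ _ _ _ ι φ hRS b hb
  have hopen : IsOpen {x : B | IsUnit x} := Units.isOpen
  obtain ⟨ε, hε, hball⟩ := Metric.isOpen_iff.mp hopen b hb
  obtain ⟨x, hx⟩ := hRS.2.2.1.exists_mem_open Metric.isOpen_ball ⟨b, Metric.mem_ball_self hε⟩
  refine ⟨ι x, h1 A B U ι φ hRS x (hball hx), ?_⟩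
  apply JoinedIn.of_segment_subset
  exact ((convex_ball b ε).segment_subset hx (Metric.mem_ball_self hε)).trans hball

end Pool.PK
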