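import Pool.Agent.H80.PK.KStmts

/-! # Board pkt, row KB0 -/

set_option autoImplicit false

namespace Pool.PK

open Filter Topology

section

variable {A : Type} [Ring A] {n m : ℕ}

theorem kb_bsum_mul (a a' : Mat A n) (b b' : Mat A m) :
    bsum a b * bsum a' b' = bsum (a * a') (b * b') := by
  unfold bsum
  rw [Matrix.reindex_apply, Matrix.reindex_apply, Matrix.reindex_apply,
    Matrix.submatrix_mul_equiv, Matrix.fromBlocks_multiply]
  simp

theorem kb_bsum_one : bsum (1 : Mat A n) (1 : Mat A m) = 1 := by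
  unfold bsum
  rw [Matrix.fromBlocks_one, Matrix.reindex_apply, Matrix.submatrix_one_equiv]

theorem kb_isUnit_bsum {a : Mat A n} {b : Mat A m} (ha : IsUnit a) (hb : IsUnit b) :
    IsUnit (bsum a b) := by
  obtain ⟨u, rfl⟩ := ha
  obtain ⟨v, rfl⟩ := hb
  refine ⟨⟨bsum u v, bsum (↑u⁻¹) (↑v⁻¹), ?_, ?_⟩, rfl⟩
  · rw [kb_bsum_mul, Units.mul_inv, Units.mul_inv, kb_bsum_one]
  · rw [kb_bsum_mul, Units.inv_mul, Units.inv_mul, kb_bsum_one]

end

section

variable {R : Type} [Ring R]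

theorem kb_sim_refl (e : R) : Similar e e := ⟨1, isUnit_one, by rw [one_mul, mul_one]⟩

theorem kb_sim_symm {e f : R} (h : Similar e f) : Similar f e := by
  obtain ⟨u, ⟨v, rfl⟩, hu⟩ := h
  refine ⟨↑v⁻¹, v⁻¹.isUnit, ?_⟩
  have h1 : (↑v⁻¹ : R) * (↑v * e) * ↑v⁻¹ = ↑v⁻¹ * (f * ↑v) * ↑v⁻¹ := by rw [hu]
  rw [← mul_assoc, Units.inv_mul, one_mul, ← mul_assoc, mul_assoc (↑v⁻¹ * f), Units.mul_inv,
    mul_one] at h1
  exact h1.symm

theorem kb_sim_trans {e f g : R} (h : Similar e f) (h' : Similar f g) : Similar e g := by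
  obtain ⟨u, hu, hue⟩ := h
  obtain ⟨v, hv, hve⟩ := h'
  refine ⟨v * u, hv.mul hu, ?_⟩
  rw [mul_assoc, hue, ← mul_assoc, hve, mul_assoc]

end

section

variable {A : Type} [Ring A] {n m : ℕ}

theorem kb_sim_bsum {e e' : Mat A n} {f f' : Mat A m} (h : Similar e e') (h' : Similar f f') :
    Similar (bsum e f) (bsum e' f') := by
  obtain ⟨u, hu, hue⟩ := h
  obtain ⟨v, hv, hve⟩ := h'
  refine ⟨bsum u v, kb_isUnit_bsum hu hv, ?_⟩
  rw [kb_bsum_mul, kb_bsum_mul, hue, hve]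

/-- the class of an idempotent matrix -/
def kbCl (p : Σ n, Idem A n) : K0 A := QuotientAddGroup.mk (FreeAbelianGroup.of p)

theorem kb_cl_sim (e f : Idem A n) (h : Similar e.1 f.1) :
    kbCl (⟨n, e⟩ : Σ n, Idem A n) = kbCl ⟨n, f⟩ := by
  unfold kbCl
  rw [QuotientAddGroup.eq]
  have h1 : FreeAbelianGroup.of (⟨n, f⟩ : Σ n, Idem A n) - FreeAbelianGroup.of ⟨n, e⟩ ∈
      AddSubgroup.closure (rel0 A) :=
    AddSubgroup.subset_closure (Or.inl ⟨n, f, e, kb_sim_symm h, rfl⟩)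
  rwa [sub_eq_neg_add] at h1

theorem kb_cl_bsum (e : Idem A n) (f : Idem A m) (g : Idem A (n + m)) (h : g.1 = bsum e.1 f.1) :
    kbCl (⟨n + m, g⟩ : Σ n, Idem A n) = kbCl ⟨n, e⟩ + kbCl ⟨m, f⟩ := by
  have h1 : FreeAbelianGroup.of (⟨n + m, g⟩ : Σ n, Idem A n) - FreeAbelianGroup.of ⟨n, e⟩ -
      FreeAbelianGroup.of ⟨m, f⟩ ∈ AddSubgroup.closure (rel0 A) :=
    AddSubgroup.subset_closure (Or.inr (Or.inl ⟨n, m, e, f, g, h, rfl⟩))
  have h2 := (QuotientAddGroup.eq_zero_iff _).2 h1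
  rw [QuotientAddGroup.mk_sub, QuotientAddGroup.mk_sub] at h2
  have h3 : kbCl (⟨n + m, g⟩ : Σ n, Idem A n) - kbCl ⟨n, e⟩ - kbCl ⟨m, f⟩ = 0 := h2
  rw [sub_sub, sub_eq_zero] at h3
  exact h3

theorem kb_cl_zero (e : Idem A n) (h : e.1 = 0) : kbCl (⟨n, e⟩ : Σ n, Idem A n) = 0 :=
  (QuotientAddGroup.eq_zero_iff _).2
    (AddSubgroup.subset_closure (Or.inr (Or.inr ⟨n, e, h, rfl⟩)))

/-- the block sum of idempotent matrices -/
def kbBsum (e : Idem A n) (f : Idem A m) : Idem A (n + m) :=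
  ⟨bsum e.1 f.1, by rw [kb_bsum_mul, e.2, f.2]⟩

/-- the zero idempotent -/
def kbZero (A : Type) [Ring A] (n : ℕ) : Idem A n := ⟨0, mul_zero 0⟩

end

theorem KB0 : KB0Stmt := by
  intro A B _ _ φ hS hI
  choose lf hlf using hS
  let ψ : FreeAbelianGroup (Σ n, Idem B n) →+ K0 A :=
    FreeAbelianGroup.lift fun p => kbCl ⟨p.1, lf p.1 p.2⟩
  have hψof : ∀ p : Σ n, Idem B n, ψ (FreeAbelianGroup.of p) = kbCl ⟨p.1, lf p.1 p.2⟩ := fun p =>
    FreeAbelianGroup.lift_apply_of _ _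
  have hψ : AddSubgroup.closure (rel0 B) ≤ ψ.ker := by
    rw [AddSubgroup.closure_le]
    intro z hz
    show ψ z = 0
    rcases hz with ⟨n, e, f, hef, rfl⟩ | ⟨n, m, e, f, g, hg, rfl⟩ | ⟨n, e, he, rfl⟩
    · rw [map_sub, hψof, hψof, sub_eq_zero]
      exact kb_cl_sim _ _ (hI n _ _
        (kb_sim_trans (kb_sim_trans (hlf n e) hef) (kb_sim_symm (hlf n f))))
    · rw [map_sub, map_sub, hψof, hψof, hψof, sub_sub, sub_eq_zero]
      have h1 : kbCl (⟨n + m, lf (n + m) g⟩ : Σ n, Idem A n) =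
          kbCl ⟨n + m, kbBsum (lf n e) (lf m f)⟩ := by
        refine kb_cl_sim _ _ (hI (n + m) _ _ ?_)
        have h2 : φ.mapMatrix (kbBsum (lf n e) (lf m f)).1 =
            bsum (φ.mapMatrix (lf n e).1) (φ.mapMatrix (lf m f).1) := map_bsum φ _ _
        rw [h2]
        refine kb_sim_trans (hlf (n + m) g) ?_
        rw [hg]
        exact kb_sim_bsum (kb_sim_symm (hlf n e)) (kb_sim_symm (hlf m f))
      exact h1.trans (kb_cl_bsum _ _ _ rfl)
    · rw [hψof]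
      have h1 : kbCl (⟨n, lf n e⟩ : Σ n, Idem A n) = kbCl ⟨n, kbZero A n⟩ := by
        refine kb_cl_sim _ _ (hI n _ _ ?_)
        have h2 : φ.mapMatrix (kbZero A n).1 = 0 := map_zero _
        rw [h2, ← he]
        exact hlf n e
      exact h1.trans (kb_cl_zero _ rfl)
  let ψ' : K0 B →+ K0 A := QuotientAddGroup.lift _ ψ hψ
  have hψ' : ∀ p : Σ n, Idem B n, ψ' (kbCl p) = kbCl ⟨p.1, lf p.1 p.2⟩ := fun p => hψof p
  have hK : ∀ p : Σ n, Idem A n, K0map φ (kbCl p) = kbCl (gen0 φ p) := by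
    intro p
    show (QuotientAddGroup.mk (FreeAbelianGroup.map (gen0 φ) (FreeAbelianGroup.of p)) : K0 B) = _
    rw [FreeAbelianGroup.map_of_apply]
    rfl
  have h1 : ψ'.comp (K0map φ) = AddMonoidHom.id (K0 A) := by
    refine QuotientAddGroup.addMonoidHom_ext _ ?_
    refine FreeAbelianGroup.lift_ext _ _ ?_
    intro p
    show ψ' (K0map φ (kbCl p)) = kbCl p
    rw [hK, hψ']
    exact kb_cl_sim _ _ (hI p.1 _ _ (hlf p.1 (idemMap φ p.2)))
  have h2 : (K0map φ).comp ψ' = AddMonoidHom.id (K0 B) := by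
    refine QuotientAddGroup.addMonoidHom_ext _ ?_
    refine FreeAbelianGroup.lift_ext _ _ ?_
    intro p
    show K0map φ (ψ' (kbCl p)) = kbCl p
    rw [hψ', hK]
    exact kb_cl_sim _ _ (hlf p.1 p.2)
  exact ⟨Function.LeftInverse.injective (g := ψ') fun x => DFunLike.congr_fun h1 x,
    Function.RightInverse.surjective (g := ψ') fun x => DFunLike.congr_fun h2 x⟩

end Pool.PK
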