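import Pool.Agent.H80.PK.GStmts

set_option autoImplicit false

namespace Pool.PK

open MeasureTheory Filter Topology
open scoped Pointwise ENNReal

/-- row SPM: the support of a convolution -/
theorem SPM : SPMStmt := by
  intro G _ _ _ _ _ _ _ μ _ A B f hf g hg x hx
  change ∫ y, f.1 y * g.1 (y⁻¹ * x) ∂μ = 0
  have h0 : ∀ y, f.1 y * g.1 (y⁻¹ * x) = 0 := by
    intro y
    by_cases h1 : y ∈ A
    · have h2 : y⁻¹ * x ∉ B := fun h => hx ⟨y, h1, y⁻¹ * x, h, by simp⟩
      have e : g.1 (y⁻¹ * x) = 0 := hg _ h2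
      rw [e, mul_zero]
    · have e : f.1 y = 0 := hf _ h1
      rw [e, zero_mul]
  simp only [h0, integral_zero]

end Pool.PK
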