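import Pool.Agent.H80.PK.RDefs
import Pool.Agent.H80.PK.INV
import Pool.Agent.H80.PK.K1S
import Pool.Agent.H42.PK.K1I
import Pool.Agent.H52.PK.SIM
import Pool.Agent.H14.PK.COE
import Pool.Agent.H88.PK.SUM
import Pool.Agent.H63.PK.HFI
import Pool.Agent.H14.PK.HFF
import Pool.Agent.H80.PK.HFN
import Pool.Agent.H45.PK.HFC
import Pool.Agent.H31.PK.PTH
import Pool.Agent.H31.PK.K0S
import Pool.Agent.H53.PK.K0I
import Pool.Agent.H80.PK.KB0
import Pool.Agent.H80.PK.KB1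
import Pool.Agent.H78.PK.MKT
import Pool.Agent.H21.PK.ABS
import Pool.Agent.H63.PK.IOT
import Pool.Agent.H65.PK.EXT
import Pool.Agent.H99.PK.ENT
import Pool.Agent.H55.PK.KER
import Pool.Agent.H18.PK.CMP
import Pool.Agent.H45.PK.HLD
import Pool.Agent.H80.PK.SPM
import Pool.Agent.H2.PK.GRO

/-! # Board `pkt`: assembly -/

set_option autoImplicit false

namespace Pool.PK

open MeasureTheory Filter Topology
open scoped ENNReal

theorem PTH0 : PTHStmt := PTH SIM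
theorem HFI0 : HFIStmt := HFI COE SUM
theorem HFN0 : HFNStmt := HFN COE SUM
theorem HFC0 : HFCStmt := HFC COE
theorem MKT0 : MKTStmt :=
  MKT (K0S HFI0 HFF HFC0 HFN0 PTH0) (K0I INV HFI0 HFF HFC0 PTH0) (K1S INV) (K1I INV) KB0 KB1
theorem CMP0 : CMPStmt := CMP MKT0 IOT EXT (ENT IOT) KER
theorem OPA0 : OPAStmt := OPA LSN YNG
theorem GRO0 : GROStmt := GRO ABS LSN HLD OPA0 SPM
theorem ABO0 : ABOStmt := ABO OPA0 STR UNI

/-- every completion between `L¹(G)` and some `B^p_r(G)` has the K-theory of `L¹(G)` -/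
theorem main {G : Type} [Group G] [TopologicalSpace G] [IsTopologicalGroup G] [LocallyCompactSpace G]
    [T2Space G] [MeasurableSpace G] [BorelSpace G] (μ : Measure G) [μ.IsHaarMeasure]
    (hG : Subexponential μ) (p : ℝ≥0∞) (hp : 1 ≤ p) (s : ASN (CG μ)) (c : ℝ)
    (h1 : ∀ f, opn μ p f ≤ s.N f) (h2 : ∀ f, s.N f ≤ c * lpn μ 1 f) :
    Nonempty (KK0 (L1alg μ) ≃+ KK0 (CP s)) ∧ Nonempty (KK1 (L1alg μ) ≃+ KK1 (CP s)) := by
  refine CMP0 (CG μ) (l1S μ) s c h2 fun n X hX => ?_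
  refine GRO0 G μ hG p hp n X ?_
  refine squeeze_zero (fun k => ?_) (fun k => ?_) hX
  · exact Finset.sum_nonneg fun i _ => Finset.sum_nonneg fun j _ =>
      add_nonneg (norm_nonneg _) ((OPA0 G μ p hp).1.1 _)
  · exact Finset.sum_le_sum fun i _ => Finset.sum_le_sum fun j _ =>
      add_le_add le_rfl (h1 _)

end Pool.PK
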