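import Pool.Agent.H80.PK.FStmts
import Pool.Agent.H80.PK.Main
import Pool.Agent.H14.PK.ONE

/-! # Board `pkt`: the flat form -/

set_option autoImplicit false

namespace Pool.PK

open MeasureTheory Filter Topology
open scoped ENNReal

theorem norm_iot {C : Type} [NonUnitalRing C] [Module ℂ C] (s : ASN C) (x : Unitization ℂ C) :
    ‖iot s x‖ = ‖x.fst‖ + s.N x.snd := by
  unfold iot
  rw [WithLp.unitization_norm_def]
  simp only [Unitization.fst_add, Unitization.fst_inl, Unitization.fst_inr, add_zero,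
    Unitization.snd_add, Unitization.snd_inl, Unitization.snd_inr, zero_add]
  congr 1
  exact UniformSpace.Completion.norm_coe (E := SN s) _

/-- comparison of `A` with `L¹(G)` -/
theorem flatKey (hEX2 : EX2Stmt) (hKRD : KRDStmt) (hMK2 : MK2Stmt) (hKAP : KAPStmt)
    (hEN2 : EN2Stmt) (hOPE : OPEStmt)
    {G : Type} [Group G] [TopologicalSpace G] [IsTopologicalGroup G] [LocallyCompactSpace G]
    [T2Space G] [MeasurableSpace G] [BorelSpace G] (μ : Measure G) [μ.IsHaarMeasure]
    (hG : Subexponential μ) (N : (G → ℂ) → ℝ) (hN : Between μ N) (A : Type) [NormedRing A]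
    [NormedAlgebra ℂ A] [CompleteSpace A] (i : (G → ℂ) → A) (ε : A →+* ℂ)
    (h : IsUnitization μ N A i ε) :
    Nonempty (K0red (aug (L1alg μ)) ≃+ K0red ε) ∧ Nonempty (K1 (Un (L1alg μ)) ≃+ K1 A) := by
  obtain ⟨p, hp, c, hb⟩ := hN
  obtain ⟨κ, hκ, hκd, hκn, hκε⟩ := hKAP G μ N A i ε h
  obtain ⟨ι, hι, hιd⟩ := IOT (CG μ) (l1S μ)
  have hιn : ∀ u, ‖ι u‖ = ‖u.fst‖ + lpn μ 1 u.snd := fun u => by
    rw [hι, norm_iot]
    rfl
  have hl0 : ∀ f : CG μ, 0 ≤ lpn μ 1 f := (LSN G μ 1 le_rfl).1.1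
  obtain ⟨φ, hφc, hφ⟩ := hEX2 _ _ _ ι κ (max 1 c) hιd (fun u => by
    rw [hκn, hιn, mul_add]
    refine add_le_add ?_ ?_
    · exact le_mul_of_one_le_left (norm_nonneg _) (le_max_left _ _)
    · refine (hb u.snd.1 u.snd.2).2.trans ?_
      rw [← (hOPE G μ 1 u.snd).2.2]
      exact mul_le_mul_of_nonneg_right (le_max_right _ _) (hl0 _))
  have hφκ : (fun x => φ (ι x)) = κ := funext hφ
  obtain ⟨m1, m2, m3⟩ := hMK2 (Un (L1alg μ)) A (Unitization ℂ (CG μ)) ι φ hφc hιd
    (by rw [hφκ]; exact hκd) (by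
      intro n X hX
      have e1 : (X.map (fun u => φ (ι u)) : Mat A n) = X.map (fun u => κ u) := by
        ext a b
        exact hφ _
      rw [e1] at hX
      have h1 := (hEN2 (CG μ) (fun f => N f.1) A κ hκn n X).1 hX
      have h2 : Tendsto (fun k : ℕ => EN (opn μ p) (X ^ k)) atTop (𝓝 0) := by
        refine squeeze_zero (fun k => ?_) (fun k => ?_) h1
        · exact Finset.sum_nonneg fun i _ => Finset.sum_nonneg fun j _ =>
            add_nonneg (norm_nonneg _) ((OPA0 G μ p hp).1.1 _)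
        · refine Finset.sum_le_sum fun i _ => Finset.sum_le_sum fun j _ =>
            add_le_add le_rfl ?_
          rw [(hOPE G μ p _).1]
          exact (hb _ ((X ^ k) i j).snd.2).1
      have h3 := GRO0 G μ hG p hp n X h2
      have h4 := (ENT IOT (CG μ) (l1S μ) n X).2 h3
      have e2 : (X.map (fun u => ι u) : Mat (Un (L1alg μ)) n) = X.map (fun u => iot (l1S μ) u) := by
        ext a b
        exact hι _
      rw [e2]
      exact h4)
  have hε : ∀ z : ℂ, ε (algebraMap ℂ A z) = z := by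
    intro z
    have hz : InCc (0 : G → ℂ) := (Cc G).zero_mem
    have h0 : i 0 = 0 := by
      have := h.smul 0 0 hz
      rwa [zero_smul, zero_smul] at this
    have := h.proj z 0 hz
    rwa [h0, add_zero] at this
  have haug : ∀ z : ℂ, aug (L1alg μ) (algebraMap ℂ _ z) = z := fun z => rfl
  let εA : A →ₐ[ℂ] ℂ := { ε with commutes' := hε }
  let aA : Un (L1alg μ) →ₐ[ℂ] ℂ := { aug (L1alg μ) with commutes' := haug }
  have hcomp : ∀ a, ε (φ a) = aug (L1alg μ) a := by
    have hc1 : Continuous fun a => (εA.comp φ) a := map_continuous (εA.comp φ)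
    have hc2 : Continuous fun a => aA a := map_continuous aA
    have he : (fun a => (εA.comp φ) a) = fun a => aA a := by
      refine hιd.equalizer hc1 hc2 (funext fun u => ?_)
      change ε (φ (ι u)) = aug (L1alg μ) (ι u)
      rw [hφ, hκε, hι, aug_apply]
      simp [iot]
    exact fun a => congrFun he a
  refine ⟨hKRD (Un (L1alg μ)) A φ (aug (L1alg μ)) ε haug hcomp m1 m2,
    ⟨AddEquiv.ofBijective (K1map (φ : Un (L1alg μ) →+* A) hφc) m3⟩⟩

end Pool.PK
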