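import Pool.Agent.H80.PK.GStmts

/-!
# Board `pkt`, third batch (the flat form of the theorem)

Definitions: KBase.lean, GBase.lean. Row `XXX` is `XXXStmt`; the file `H<k>/PK/XXX.lean` proves
`theorem Pool.PK.XXX (h1 : YYYStmt) ... : XXXStmt`. Import `Pool.Agent.H80.PK.FStmts`.
-/

set_option autoImplicit false

namespace Pool.PK

open MeasureTheory Filter Topology UniformSpace
open scoped Pointwise ENNReal

/-- row EX2. Extension of a bounded algebra map from a dense subalgebra. On `ι.range` (a dense subspace of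
`A`) the map `ι u ↦ κ u` is well defined (`‖κ (u - v)‖ ≤ c ‖ι (u - v)‖`), linear and bounded; extend it
(`ContinuousLinearMap.extend` or `DenseInducing.extend`); it is multiplicative and maps 1 to 1 by
density. -/
def EX2Stmt : Prop := ∀ (U A B : Type) [Ring U] [Algebra ℂ U] [NormedRing A] [NormedAlgebra ℂ A]
  [NormedRing B] [NormedAlgebra ℂ B] [CompleteSpace B] (ι : U →ₐ[ℂ] A) (κ : U →ₐ[ℂ] B) (c : ℝ),
  DenseRange ι → (∀ u, ‖κ u‖ ≤ c * ‖ι u‖) →
  ∃ φ : A →ₐ[ℂ] B, Continuous φ ∧ ∀ u, φ (ι u) = κ u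

/-- row KRD. `K0map φ` maps generators of `K0red εA` to such of `K0red εB`. Conversely let `e, f` be
idempotents over `B` with `εB e = εB f` (entrywise). Choose `e1, f1` over `A` with `φ e1 ~ e`,
`φ f1 ~ f` (hypothesis). Then `εA e1 = εB (φ e1) ~ εB e = εB f ~ εB (φ f1) = εA f1` as matrices over `ℂ`:
`w (εA e1) w⁻¹ = εA f1` with `w` in `GL_n(ℂ)`; `w' = w.map (algebraMap ℂ A)`,
`e2 = w' e1 w'⁻¹` has `εA e2 = εA f1` (entrywise), `[e2] = [e1]`, and `[e] - [f] = K0map φ ([e2] - [f1])`. So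
the bijection restricts to a bijection of the two subgroups. -/
def KRDStmt : Prop := ∀ (A B : Type) [Ring A] [Algebra ℂ A] [Ring B] [Algebra ℂ B] (φ : A →ₐ[ℂ] B)
  (εA : A →+* ℂ) (εB : B →+* ℂ), (∀ c, εA (algebraMap ℂ A c) = c) → (∀ a, εB (φ a) = εA a) →
  (∀ (n : ℕ) (f : Idem B n), ∃ e : Idem A n, Similar ((φ : A →+* B).mapMatrix e.1) f.1) →
  Function.Bijective (K0map (φ : A →+* B)) → Nonempty (K0red εA ≃+ K0red εB)

/-- row MK2 (needs K0S K0I K1S K1I KB0 KB1). As MKT (Pool/Agent/H78/PK/MKT.lean; import it for `mkt_rs`,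
`mkt_complete`, same proof), with the lifting of idempotents as additional conclusion. -/
def MK2Stmt : Prop := ∀ (A B U : Type) [NormedRing A] [NormedAlgebra ℂ A] [CompleteSpace A]
  [NormedRing B] [NormedAlgebra ℂ B] [CompleteSpace B] [Ring U] [Algebra ℂ U]
  (ι : U →ₐ[ℂ] A) (φ : A →ₐ[ℂ] B) (hφ : Continuous (φ : A →+* B)), DenseRange ι →
  DenseRange (fun x => φ (ι x)) →
  (∀ (n : ℕ) (X : Mat U n),
    Tendsto (fun k : ℕ => ((X.map (fun u => φ (ι u)) : Mat B n)) ^ k) atTop (𝓝 0) →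
    Tendsto (fun k : ℕ => ((X.map (fun u => ι u) : Mat A n)) ^ k) atTop (𝓝 0)) →
  (∀ (n : ℕ) (f : Idem B n), ∃ e : Idem A n, Similar ((φ : A →+* B).mapMatrix e.1) f.1) ∧
  Function.Bijective (K0map (φ : A →+* B)) ∧ Function.Bijective (K1map (φ : A →+* B) hφ)

/-- row KAP. `κ (λ, f) = λ + i f`. (`InCc f` is `f ∈ Cc G`; `f.1`, `f.2` for `f : CG μ`; `i 0 = 0` by `smul`
with `c = 0`.) `A` need not be complete here. -/
def KAPStmt : Prop := ∀ (G : Type) [Group G] [TopologicalSpace G] [IsTopologicalGroup G]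
  [LocallyCompactSpace G] [T2Space G] [MeasurableSpace G] [BorelSpace G] (μ : Measure G)
  [μ.IsHaarMeasure] (N : (G → ℂ) → ℝ) (A : Type) [NormedRing A] [NormedAlgebra ℂ A]
  (i : (G → ℂ) → A) (ε : A →+* ℂ), IsUnitization μ N A i ε →
  ∃ κ : Unitization ℂ (CG μ) →ₐ[ℂ] A, (∀ x, κ x = algebraMap ℂ A x.fst + i x.snd.1) ∧
    DenseRange κ ∧ (∀ x, ‖κ x‖ = ‖x.fst‖ + N x.snd.1) ∧ ∀ x, ε (κ x) = x.fst

/-- row EXI. `i f = toLp 1 (inr (cp s ⟨f, _⟩))` for `f ∈ C_c(G)` and `0` otherwise (classical), `ε = aug`. -/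
def EXIStmt : Prop := ∀ (G : Type) [Group G] [TopologicalSpace G] [IsTopologicalGroup G]
  [LocallyCompactSpace G] [T2Space G] [MeasurableSpace G] [BorelSpace G] (μ : Measure G)
  [μ.IsHaarMeasure] (N : (G → ℂ) → ℝ) (s : ASN (CG μ)), (∀ f : CG μ, N f.1 = s.N f) →
  ∃ i : (G → ℂ) → Un (CP s), IsUnitization μ N (Un (CP s)) i (aug (CP s))

/-- row EN2. `κ` of KAP (only the norm formula is used). `(X.map κ) ^ k = (X ^ k).map κ`; a sequence of
matrices tends to 0 iff all entries do. (Compare Pool/Agent/H99/PK/ENT.lean.) -/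
def EN2Stmt : Prop := ∀ (C : Type) [NonUnitalRing C] [Module ℂ C] [IsScalarTower ℂ C C]
  [SMulCommClass ℂ C C] (N : C → ℝ) (A : Type) [NormedRing A] [NormedAlgebra ℂ A]
  (κ : Unitization ℂ C →ₐ[ℂ] A), (∀ x, ‖κ x‖ = ‖x.fst‖ + N x.snd) → ∀ (n : ℕ)
  (X : Mat (Unitization ℂ C) n),
  Tendsto (fun k : ℕ => ((X.map (fun u => κ u) : Mat A n)) ^ k) atTop (𝓝 0) ↔
  Tendsto (fun k : ℕ => EN N (X ^ k)) atTop (𝓝 0)

/-- row OPE. `opn μ p f = opNorm μ p f.1` and `opNormStar` (unfold: a quantifier over the subtype `CG μ`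
against one over functions with `InCc`; `(f * g).1 = conv μ f.1 g.1` and `(str f).1` by `rfl`). -/
def OPEStmt : Prop := ∀ (G : Type) [Group G] [TopologicalSpace G] [IsTopologicalGroup G]
  [LocallyCompactSpace G] [T2Space G] [MeasurableSpace G] [BorelSpace G] (μ : Measure G)
  [μ.IsHaarMeasure] (p : ℝ≥0∞) (f : CG μ), opn μ p f = opNorm μ p f.1 ∧
  max (opn μ p f) (opn μ p (str f)) = opNormStar μ p f.1 ∧ lpn μ 1 f = (eLpNorm f.1 1 μ).toReal

end Pool.PK
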