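import Pool.Agent.H80.PK.KBase

/-!
# The norms of the algebras `B^p_r(G)` and `B^{p,*}_r(G)`

Definitions for the board `pkt` (MP_70b9d9_an).
-/

set_option autoImplicit false

namespace Pool.PK

open MeasureTheory Filter Topology
open scoped Pointwise ENNReal

section group

variable {G : Type} [Group G] [TopologicalSpace G] [MeasurableSpace G] (μ : Measure G)

/-- every compact set has subexponential growth -/
def Subexponential : Prop :=
  ∀ K : Set G, IsCompact K → ∀ c : ℝ, 1 < c → ∃ A : ℝ, ∀ n : ℕ, (μ (K ^ n)).toReal ≤ A * c ^ n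

/-- `f ∈ C_c(G)` -/
def InCc (f : G → ℂ) : Prop := Continuous f ∧ HasCompactSupport f

/-- convolution `(f * g)(x) = ∫ f(y) g(y⁻¹ x) dy` -/
noncomputable def conv (f g : G → ℂ) : G → ℂ := fun x => ∫ y, f y * g (y⁻¹ * x) ∂μ

/-- the norm of the operator `g ↦ f * g` of `L^p(G)` -/
noncomputable def opNorm (p : ℝ≥0∞) (f : G → ℂ) : ℝ :=
  sInf {c : ℝ | 0 ≤ c ∧ ∀ g : G → ℂ, InCc g →
    (eLpNorm (conv μ f g) p μ).toReal ≤ c * (eLpNorm g p μ).toReal}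

/-- `max(‖f‖, ‖f^*‖)`, norms of operators of `L^p(G)`, `f^*(x) = conj (f (x⁻¹))` -/
noncomputable def opNormStar (p : ℝ≥0∞) (f : G → ℂ) : ℝ :=
  max (opNorm μ p f) (opNorm μ p fun x => (starRingEnd ℂ) (f x⁻¹))

/-- `N` is, on `C_c(G)`, between the norm of `B(L^p(G))`, for some `p`, and a multiple of the norm of
`L¹(G)` -/
def Between (N : (G → ℂ) → ℝ) : Prop :=
  ∃ p : ℝ≥0∞, 1 ≤ p ∧ ∃ c : ℝ, ∀ f, InCc f →
    opNorm μ p f ≤ N f ∧ N f ≤ c * (eLpNorm f 1 μ).toReal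

/-- `A` is the unitization `ℂ ⊕ B` of the completion `B` of `C_c(G)` in the norm `N`; `i` is the
canonical map of `C_c(G)` to `A`, `ε` the projection to `ℂ` -/
structure IsUnitization (N : (G → ℂ) → ℝ) (A : Type) [NormedRing A] [NormedAlgebra ℂ A]
    (i : (G → ℂ) → A) (ε : A →+* ℂ) : Prop where
  add : ∀ f g, InCc f → InCc g → i (f + g) = i f + i g
  smul : ∀ (c : ℂ) f, InCc f → i (c • f) = c • i f
  mul : ∀ f g, InCc f → InCc g → i (conv μ f g) = i f * i g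
  norm : ∀ (c : ℂ) f, InCc f → ‖algebraMap ℂ A c + i f‖ = ‖c‖ + N f
  proj : ∀ (c : ℂ) f, InCc f → ε (algebraMap ℂ A c + i f) = c
  dense : ∀ (a : A) (δ : ℝ), 0 < δ → ∃ (c : ℂ) (f : G → ℂ), InCc f ∧
    ‖a - (algebraMap ℂ A c + i f)‖ < δ

end group

/-- `K₀(B)` for `B = ker ε`, `A = ℂ ⊕ B`: the subgroup of `K₀(A)` generated by the `[e] - [f]`,
`e - f` a matrix over `B` -/
def K0red {A : Type} [Ring A] (ε : A →+* ℂ) : AddSubgroup (K0 A) :=
  AddSubgroup.closure {z | ∃ (n : ℕ) (e f : Idem A n), (∀ i j, ε (e.1 i j) = ε (f.1 i j)) ∧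
    z = QuotientAddGroup.mk (FreeAbelianGroup.of ⟨n, e⟩ - FreeAbelianGroup.of ⟨n, f⟩)}

/-- `K_j(B) = K_j(B')`, `j = 0, 1`, up to isomorphism, for `A = ℂ ⊕ B`, `A' = ℂ ⊕ B'` -/
def SameK {A A' : Type} [Ring A] [TopologicalSpace A] [Ring A'] [TopologicalSpace A']
    (ε : A →+* ℂ) (ε' : A' →+* ℂ) : Prop :=
  Nonempty (K0red ε ≃+ K0red ε') ∧ Nonempty (K1 A ≃+ K1 A')

end Pool.PK
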