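import Pool.Agent.H80.PK.KDefs
import Pool.Agent.H80.PK.GBase

/-!
# The convolution algebra of a locally compact group

Definitions for the board `pkt` (MP_70b9d9_an).
-/

set_option autoImplicit false

namespace Pool.PK

open MeasureTheory Filter Topology
open scoped Pointwise

section conv

variable {G : Type} [Group G] [TopologicalSpace G] [IsTopologicalGroup G] [MeasurableSpace G]
  [BorelSpace G]

/-- `C_c(G)`: the continuous functions with compact support -/
def Cc (G : Type) [TopologicalSpace G] : Submodule ℂ (G → ℂ) where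
  carrier := {f | Continuous f ∧ HasCompactSupport f}
  add_mem' := fun hf hg => ⟨hf.1.add hg.1, hf.2.add hg.2⟩
  zero_mem' := ⟨continuous_const, HasCompactSupport.zero⟩
  smul_mem' := fun c _ hf => ⟨hf.1.const_smul c, hf.2.smul_left⟩

variable (μ : Measure G) [μ.IsHaarMeasure]

theorem conv_integrable {f g : G → ℂ} (hf : f ∈ Cc G) (hg : g ∈ Cc G) (x : G) :
    Integrable (fun y => f y * g (y⁻¹ * x)) μ := by
  refine Continuous.integrable_of_hasCompactSupport ?_ ?_
  · exact hf.1.mul (hg.1.comp (continuous_inv.mul continuous_const))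
  · exact hf.2.mul_right

theorem conv_mem {f g : G → ℂ} (hf : f ∈ Cc G) (hg : g ∈ Cc G) : conv μ f g ∈ Cc G := by
  constructor
  · rw [← continuousOn_univ]
    refine continuousOn_integral_of_compact_support (k := tsupport f) hf.2 ?_ ?_
    · refine Continuous.continuousOn ?_
      exact (hf.1.comp continuous_snd).mul
        (hg.1.comp ((continuous_inv.comp continuous_snd).mul continuous_fst))
    · intro p y _ hy
      rw [image_eq_zero_of_notMem_tsupport hy, zero_mul]
  · refine HasCompactSupport.intro (K := tsupport f * tsupport g) (hf.2.mul hg.2) ?_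
    intro x hx
    change ∫ y, f y * g (y⁻¹ * x) ∂μ = 0
    have h0 : ∀ y, f y * g (y⁻¹ * x) = 0 := by
      intro y
      by_contra hne
      have h1 : y ∈ tsupport f := by
        by_contra h
        exact hne (by rw [image_eq_zero_of_notMem_tsupport h, zero_mul])
      have h2 : y⁻¹ * x ∈ tsupport g := by
        by_contra h
        exact hne (by rw [image_eq_zero_of_notMem_tsupport h, mul_zero])
      exact hx ⟨y, h1, y⁻¹ * x, h2, by simp⟩
    simp only [h0, integral_zero]

theorem conv_assoc {f g h : G → ℂ} (hf : f ∈ Cc G) (hg : g ∈ Cc G) (hh : h ∈ Cc G) :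
    conv μ (conv μ f g) h = conv μ f (conv μ g h) := by
  funext x
  have e1 : conv μ (conv μ f g) h x = ∫ z, ∫ y, f y * g (y⁻¹ * z) * h (z⁻¹ * x) ∂μ ∂μ := by
    refine integral_congr_ae (Eventually.of_forall fun z => ?_)
    change (∫ y, f y * g (y⁻¹ * z) ∂μ) * h (z⁻¹ * x) = _
    rw [← integral_mul_const]
  have e2 : ∫ z, ∫ y, f y * g (y⁻¹ * z) * h (z⁻¹ * x) ∂μ ∂μ
      = ∫ y, ∫ z, f y * g (y⁻¹ * z) * h (z⁻¹ * x) ∂μ ∂μ := by
    refine integral_integral_swap_of_hasCompactSupport
      (f := fun z y => f y * g (y⁻¹ * z) * h (z⁻¹ * x)) ?_ ?_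
    · exact ((hf.1.comp continuous_snd).mul
        (hg.1.comp ((continuous_inv.comp continuous_snd).mul continuous_fst))).mul
        (hh.1.comp ((continuous_inv.comp continuous_fst).mul continuous_const))
    · refine HasCompactSupport.intro (K := (tsupport f * tsupport g) ×ˢ tsupport f)
        ((hf.2.mul hg.2).prod hf.2) ?_
      rintro ⟨z, y⟩ hzy
      change f y * g (y⁻¹ * z) * h (z⁻¹ * x) = 0
      by_contra hne
      have h1 : y ∈ tsupport f := by
        by_contra h
        exact hne (by rw [image_eq_zero_of_notMem_tsupport h, zero_mul, zero_mul])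
      have h2 : y⁻¹ * z ∈ tsupport g := by
        by_contra h
        exact hne (by rw [image_eq_zero_of_notMem_tsupport h, mul_zero, zero_mul])
      exact hzy ⟨⟨y, h1, y⁻¹ * z, h2, by simp⟩, h1⟩
  rw [e1, e2]
  refine integral_congr_ae (Eventually.of_forall fun y => ?_)
  change ∫ z, f y * g (y⁻¹ * z) * h (z⁻¹ * x) ∂μ = f y * ∫ z, g z * h (z⁻¹ * (y⁻¹ * x)) ∂μ
  rw [← integral_const_mul]
  rw [← integral_mul_left_eq_self (μ := μ) (fun z => f y * g (y⁻¹ * z) * h (z⁻¹ * x)) y]
  refine integral_congr_ae (Eventually.of_forall fun z => ?_)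
  simp only [mul_inv_rev, inv_mul_cancel_left, mul_assoc]

theorem conv_add_left {f f' g : G → ℂ} (hf : f ∈ Cc G) (hf' : f' ∈ Cc G) (hg : g ∈ Cc G) :
    conv μ (f + f') g = conv μ f g + conv μ f' g := by
  funext x
  change ∫ y, (f y + f' y) * g (y⁻¹ * x) ∂μ = _
  simp only [add_mul]
  exact integral_add (conv_integrable μ hf hg x) (conv_integrable μ hf' hg x)

theorem conv_add_right {f g g' : G → ℂ} (hf : f ∈ Cc G) (hg : g ∈ Cc G) (hg' : g' ∈ Cc G) :
    conv μ f (g + g') = conv μ f g + conv μ f g' := by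
  funext x
  change ∫ y, f y * (g (y⁻¹ * x) + g' (y⁻¹ * x)) ∂μ = _
  simp only [mul_add]
  exact integral_add (conv_integrable μ hf hg x) (conv_integrable μ hf hg' x)

omit [TopologicalSpace G] [IsTopologicalGroup G] [BorelSpace G] [μ.IsHaarMeasure] in
theorem conv_smul_left (c : ℂ) (f g : G → ℂ) : conv μ (c • f) g = c • conv μ f g := by
  funext x
  change ∫ y, c * f y * g (y⁻¹ * x) ∂μ = c * ∫ y, f y * g (y⁻¹ * x) ∂μ
  rw [← integral_const_mul]
  simp only [mul_assoc]

omit [TopologicalSpace G] [IsTopologicalGroup G] [BorelSpace G] [μ.IsHaarMeasure] in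
theorem conv_smul_right (c : ℂ) (f g : G → ℂ) : conv μ f (c • g) = c • conv μ f g := by
  funext x
  change ∫ y, f y * (c * g (y⁻¹ * x)) ∂μ = c * ∫ y, f y * g (y⁻¹ * x) ∂μ
  rw [← integral_const_mul]
  simp only [mul_left_comm]

end conv

/-- the algebra `C_c(G)` with the convolution product -/
def CG {G : Type} [Group G] [TopologicalSpace G] [IsTopologicalGroup G] [MeasurableSpace G]
    [BorelSpace G] (_ : Measure G) : Type := Cc G

section algebra

variable {G : Type} [Group G] [TopologicalSpace G] [IsTopologicalGroup G] [MeasurableSpace G]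
  [BorelSpace G] (μ : Measure G) [μ.IsHaarMeasure]

noncomputable instance : AddCommGroup (CG μ) := inferInstanceAs (AddCommGroup (Cc G))
noncomputable instance : Module ℂ (CG μ) := inferInstanceAs (Module ℂ (Cc G))
noncomputable instance : Mul (CG μ) := ⟨fun f g => ⟨conv μ f.1 g.1, conv_mem μ f.2 g.2⟩⟩

noncomputable instance : NonUnitalRing (CG μ) :=
  { (inferInstance : AddCommGroup (CG μ)), (inferInstance : Mul (CG μ)) with
    left_distrib := fun f g h => Subtype.ext (conv_add_right μ f.2 g.2 h.2)
    right_distrib := fun f g h => Subtype.ext (conv_add_left μ f.2 g.2 h.2)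
    zero_mul := fun f => Subtype.ext (by
      change conv μ 0 f.1 = 0
      have := conv_smul_left μ 0 0 f.1
      rwa [zero_smul, zero_smul] at this)
    mul_zero := fun f => Subtype.ext (by
      change conv μ f.1 0 = 0
      have := conv_smul_right μ 0 f.1 0
      rwa [zero_smul, zero_smul] at this)
    mul_assoc := fun f g h => Subtype.ext (conv_assoc μ f.2 g.2 h.2) }

instance : IsScalarTower ℂ (CG μ) (CG μ) :=
  ⟨fun c f g => Subtype.ext (conv_smul_left μ c f.1 g.1)⟩

instance : SMulCommClass ℂ (CG μ) (CG μ) :=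
  ⟨fun c f g => Subtype.ext (conv_smul_right μ c f.1 g.1).symm⟩

end algebra

end Pool.PK
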