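import Pool.Agent.H80.PK.CDefs

/-!
# Norms on `C_c(G)`

Definitions for the board `pkt` (MP_70b9d9_an).
-/

set_option autoImplicit false

namespace Pool.PK

open MeasureTheory Filter Topology
open scoped Pointwise ENNReal

section norms

variable {G : Type} [Group G] [TopologicalSpace G] [IsTopologicalGroup G] [MeasurableSpace G]
  [BorelSpace G] (μ : Measure G)

/-- the `L^p` norm of `f` -/
noncomputable def lpn (p : ℝ≥0∞) (f : CG μ) : ℝ := (eLpNorm (f.1 : G → ℂ) p μ).toReal

/-- the norm of the convolution operator `g ↦ f * g` on `L^p(G)` -/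
noncomputable def opn [μ.IsHaarMeasure] (p : ℝ≥0∞) (f : CG μ) : ℝ :=
  sInf {c : ℝ | 0 ≤ c ∧ ∀ g : CG μ, lpn μ p (f * g) ≤ c * lpn μ p g}

/-- `f^*(x) = conj (f (x⁻¹))` -/
noncomputable def str {μ : Measure G} (f : CG μ) : CG μ :=
  ⟨fun x => (starRingEnd ℂ) (f.1 x⁻¹),
    Complex.continuous_conj.comp (f.2.1.comp continuous_inv),
    (f.2.2.comp_homeomorph (Homeomorph.inv G)).comp_left (map_zero _)⟩

/-- the functions in `C_c(G)` vanishing outside `A` -/
def suppIn (A : Set G) : Submodule ℂ (CG μ) where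
  carrier := {f | ∀ x, x ∉ A → f.1 x = 0}
  add_mem' := by
    intro f g hf hg x hx
    change f.1 x + g.1 x = 0
    rw [hf x hx, hg x hx, add_zero]
  zero_mem' := fun _ _ => rfl
  smul_mem' := by
    intro c f hf x hx
    change c * f.1 x = 0
    rw [hf x hx, mul_zero]

end norms

end Pool.PK
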