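import Pool.Agent.H80.PK.KStmts
import Pool.Agent.H80.PK.LDefs

/-!
# Board `pkt`, second batch (completions; convolution algebras)

Row `XXX` is the statement `XXXStmt`; the file `Pool/Agent/H80/PK/XXX.lean` (or `H<k>/PK/XXX.lean`) proves
`theorem Pool.PK.XXX (h1 : YYYStmt) ... : XXXStmt` (`YYY` the rows in the column `needs`; fewer
hypotheses are fine). Import `Pool.Agent.H80.PK.GStmts`.

Notation: `CG μ` is `C_c(G)` with convolution (GDefs.lean; `conv_mem`, `conv_integrable`), `f.1 : G → ℂ`,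
`f.2 : Continuous f.1 ∧ HasCompactSupport f.1`, `(f * g).1 = conv μ f.1 g.1` by `rfl`. `CP s` is the
completion of `C` in the algebra seminorm `s` (CDefs.lean; `Completion.norm_coe`, `norm_sn`, `coe_mul'`).
-/

set_option autoImplicit false

namespace Pool.PK

open MeasureTheory Filter Topology UniformSpace
open scoped Pointwise ENNReal

/-! ## Completions -/

/-- row IOT. `iot s x = toLp 1 (x.fst + cp s x.snd)`; multiplicative by `coe_mul'`; dense range since the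
coercion to the completion has dense range (the norm is `‖fst‖ + ‖snd‖`, `unitization_norm_def`). -/
def IOTStmt : Prop := ∀ (C : Type) [NonUnitalRing C] [Module ℂ C] [IsScalarTower ℂ C C]
  [SMulCommClass ℂ C C] (s : ASN C),
  ∃ ι : Unitization ℂ C →ₐ[ℂ] Un (CP s), (∀ x, ι x = iot s x) ∧ DenseRange ι

/-- row EXT. The identity `SN s → SN t` is linear and bounded by `c`, so it extends to the completions:
`ψ : CP s → CP t` (for instance `NormedAddGroupHom.completion`, `ContinuousLinearMap` extension, or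
`UniformSpace.Completion.map`), multiplicative by density. `φ (λ, b) = (λ, ψ b)`. -/
def EXTStmt : Prop := ∀ (C : Type) [NonUnitalRing C] [Module ℂ C] [IsScalarTower ℂ C C]
  [SMulCommClass ℂ C C] (s t : ASN C) (c : ℝ), (∀ f, t.N f ≤ c * s.N f) →
  ∃ φ : Un (CP s) →ₐ[ℂ] Un (CP t), Continuous φ ∧ (∀ x, φ (iot s x) = iot t x) ∧
    ∀ y, aug (CP t) (φ y) = aug (CP s) y

/-- row ENT (needs IOT). `(X.map ι) ^ k = (X ^ k).map ι` for the algebra map `ι` of IOT; a sequence of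
matrices tends to 0 iff all entries do; `‖iot s x‖ = ‖x.fst‖ + s.N x.snd`. -/
def ENTStmt : Prop := ∀ (C : Type) [NonUnitalRing C] [Module ℂ C] [IsScalarTower ℂ C C]
  [SMulCommClass ℂ C C] (s : ASN C) (n : ℕ) (X : Mat (Unitization ℂ C) n),
  Tendsto (fun k : ℕ => ((X.map (fun u => iot s u) : Mat (Un (CP s)) n)) ^ k) atTop (𝓝 0) ↔
  Tendsto (fun k : ℕ => EN s.N (X ^ k)) atTop (𝓝 0)

/-- row KER. `K0map (aug B) ∘ K0map φ = K0map (aug A)` and the same for `K1map` (check on generators: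
`QuotientAddGroup.induction_on`, `FreeAbelianGroup`, or general functoriality `K0map_comp`), so the
bijections restrict to the kernels. -/
def KERStmt : Prop := ∀ (A B : Type) [NonUnitalNormedRing A] [NormedSpace ℂ A] [IsScalarTower ℂ A A]
  [SMulCommClass ℂ A A] [NonUnitalNormedRing B] [NormedSpace ℂ B] [IsScalarTower ℂ B B]
  [SMulCommClass ℂ B B] (φ : Un A →ₐ[ℂ] Un B) (hφ : Continuous (φ : Un A →+* Un B)),
  (∀ y, aug B (φ y) = aug A y) → Function.Bijective (K0map (φ : Un A →+* Un B)) →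
  Function.Bijective (K1map (φ : Un A →+* Un B) hφ) →
  Nonempty (KK0 A ≃+ KK0 B) ∧ Nonempty (KK1 A ≃+ KK1 B)

/-- row CMP (needs MKT IOT EXT ENT KER). Comparison of two completions. MKT for `A = Un (CP s)`,
`B = Un (CP t)`, `U = Unitization ℂ C`, `ι` of IOT for `s`, `φ` of EXT (`φ ∘ ι` is `ι` of IOT for `t`); the
condition on powers is ENT for `t` and for `s`. Then KER. -/
def CMPStmt : Prop := ∀ (C : Type) [NonUnitalRing C] [Module ℂ C] [IsScalarTower ℂ C C]
  [SMulCommClass ℂ C C] (s t : ASN C) (c : ℝ), (∀ f, t.N f ≤ c * s.N f) →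
  (∀ (n : ℕ) (X : Mat (Unitization ℂ C) n), Tendsto (fun k : ℕ => EN t.N (X ^ k)) atTop (𝓝 0) →
    Tendsto (fun k : ℕ => EN s.N (X ^ k)) atTop (𝓝 0)) →
  Nonempty (KK0 (CP s) ≃+ KK0 (CP t)) ∧ Nonempty (KK1 (CP s) ≃+ KK1 (CP t))

/-! ## Norms on `C_c(G)` -/

/-- row LSN. `Continuous.memLp_of_hasCompactSupport`, `eLpNorm_add_le`, `eLpNorm_const_smul`. -/
def LSNStmt : Prop := ∀ (G : Type) [Group G] [TopologicalSpace G] [IsTopologicalGroup G]
  [LocallyCompactSpace G] [T2Space G] [MeasurableSpace G] [BorelSpace G] (μ : Measure G)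
  [μ.IsHaarMeasure] (p : ℝ≥0∞), 1 ≤ p →
  IsSN (lpn μ p) ∧ ∀ f : CG μ, MemLp (f.1 : G → ℂ) p μ

/-- row YNG (Young's inequality). `|f * g|(x) ≤ ∫ |f(y)| |g(y⁻¹ x)| dy`. `p = ∞`: bound `|g|` by its
supremum (`eLpNormEssSup`; `g` is continuous and `μ` is positive on open sets). `p = 1`: Fubini for
continuous functions with compact support (`integral_integral_swap_of_hasCompactSupport`, see `conv_assoc` in
GDefs.lean) and left invariance. `1 < p < ∞`: Hölder for the measure `|f(y)| dy` gives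
`|f * g|(x)^p ≤ ‖f‖₁^(p-1) ∫ |f(y)| |g(y⁻¹ x)|^p dy`; integrate as in the case `p = 1`:
`‖f * g‖_p^p ≤ ‖f‖₁^p ‖g‖_p^p`. -/
def YNGStmt : Prop := ∀ (G : Type) [Group G] [TopologicalSpace G] [IsTopologicalGroup G]
  [LocallyCompactSpace G] [T2Space G] [MeasurableSpace G] [BorelSpace G] (μ : Measure G)
  [μ.IsHaarMeasure] (p : ℝ≥0∞), 1 ≤ p → ∀ f g : CG μ, lpn μ p (f * g) ≤ lpn μ 1 f * lpn μ p g

/-- row HLD (Hölder). Restrict `μ` to `K` (`eLpNorm_le_eLpNorm_mul_rpow_measure_univ`):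
`‖f‖₁ ≤ μ(K)^(1 - 1/p) ‖f‖_p`, and `μ(K)^(1 - 1/p) ≤ 1 + μ(K)`. -/
def HLDStmt : Prop := ∀ (G : Type) [Group G] [TopologicalSpace G] [IsTopologicalGroup G]
  [LocallyCompactSpace G] [T2Space G] [MeasurableSpace G] [BorelSpace G] (μ : Measure G)
  [μ.IsHaarMeasure] (p : ℝ≥0∞), 1 ≤ p → ∀ K : Set G, IsCompact K → ∀ f ∈ suppIn μ K,
  lpn μ 1 f ≤ (1 + (μ K).toReal) * lpn μ p f

/-- row OPA (needs LSN YNG). The set in `opn` is nonempty (it contains `lpn μ 1 f`, YNG), bounded below by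
0 and closed, so `opn` belongs to it. -/
def OPAStmt : Prop := ∀ (G : Type) [Group G] [TopologicalSpace G] [IsTopologicalGroup G]
  [LocallyCompactSpace G] [T2Space G] [MeasurableSpace G] [BorelSpace G] (μ : Measure G)
  [μ.IsHaarMeasure] (p : ℝ≥0∞), 1 ≤ p →
  IsSN (opn μ p) ∧ (∀ f g, opn μ p (f * g) ≤ opn μ p f * opn μ p g) ∧
  (∀ f g, lpn μ p (f * g) ≤ opn μ p f * lpn μ p g) ∧ ∀ f, opn μ p f ≤ lpn μ 1 f

/-- row STR. `(g^* * f^*)(x) = ∫ conj g(y⁻¹) conj f(x⁻¹ y) dy`, substitute `y = x z` (left invariance):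
`= ∫ conj g(z⁻¹ x⁻¹) conj f(z) dz = conj ((f * g)(x⁻¹))`. -/
def STRStmt : Prop := ∀ (G : Type) [Group G] [TopologicalSpace G] [IsTopologicalGroup G]
  [LocallyCompactSpace G] [T2Space G] [MeasurableSpace G] [BorelSpace G] (μ : Measure G)
  [μ.IsHaarMeasure], (∀ f g : CG μ, str (f + g) = str f + str g) ∧
  (∀ (c : ℂ) (f : CG μ), str (c • f) = (starRingEnd ℂ) c • str f) ∧
  (∀ f g : CG μ, str (f * g) = str g * str f) ∧ ∀ f : CG μ, str (str f) = f

/-- row UNI (subexponential growth implies unimodular). Let `Δ` be the modular function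
(`MeasureTheory.Measure.modularCharacterFun`, `map_right_mul_eq_modularCharacterFun_smul` or so). For a
compact neighbourhood `K` of 1 and `g` in `G` let `L = K ∪ {g}` (compact): `K g^n ⊆ L^(n+1)`, and
`μ(K g^n) = δ^n μ(K)`, `0 < μ(K) < ∞`, where `δ = Δ(g)` or `Δ(g)⁻¹`; so `δ^n μ(K) ≤ A c^(n+1)` for all
`c > 1`, hence `δ ≤ 1`. The same for `g⁻¹`: `Δ = 1`, `μ` is right invariant. Then the image of `μ` under
inversion is a left Haar measure, equal to `c μ` on `C_c` (`integral_isMulLeftInvariant_eq_smul_of_hasCompactSupport`),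
and `c = 1` (evaluate on `h(x) + h(x⁻¹)` for some `h ≥ 0`). So `∫ |f(x⁻¹)| dx = ∫ |f(x)| dx`. -/
def UNIStmt : Prop := ∀ (G : Type) [Group G] [TopologicalSpace G] [IsTopologicalGroup G]
  [LocallyCompactSpace G] [T2Space G] [MeasurableSpace G] [BorelSpace G] (μ : Measure G)
  [μ.IsHaarMeasure], Subexponential μ → ∀ f : CG μ, lpn μ 1 (str f) = lpn μ 1 f

/-- row SPM. If `x ∉ A * B` then for each `y` one of `f(y)`, `g(y⁻¹ x)` is 0. -/
def SPMStmt : Prop := ∀ (G : Type) [Group G] [TopologicalSpace G] [IsTopologicalGroup G]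
  [LocallyCompactSpace G] [T2Space G] [MeasurableSpace G] [BorelSpace G] (μ : Measure G)
  [μ.IsHaarMeasure] (A B : Set G), ∀ f ∈ suppIn μ A, ∀ g ∈ suppIn μ B, f * g ∈ suppIn μ (A * B)

/-- row GRO (needs ABS LSN HLD OPA SPM). Let `K` be the union of `{1}` and the (finitely many) supports of
the `(X i j).snd`, a compact set. ABS with `N1 = lpn μ 1`, `M = opn μ p`, `V = lpn μ p`,
`S k = suppIn μ (K ^ k)`, `g k = 1 + (μ (K ^ k)).toReal`. (`K ^ k ⊆ K ^ (k+1)` as `1 ∈ K`; `K ^ k` is compact.) -/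
def GROStmt : Prop := ∀ (G : Type) [Group G] [TopologicalSpace G] [IsTopologicalGroup G]
  [LocallyCompactSpace G] [T2Space G] [MeasurableSpace G] [BorelSpace G] (μ : Measure G)
  [μ.IsHaarMeasure], Subexponential μ → ∀ (p : ℝ≥0∞), 1 ≤ p → ∀ (n : ℕ)
  (X : Mat (Unitization ℂ (CG μ)) n), Tendsto (fun k : ℕ => EN (opn μ p) (X ^ k)) atTop (𝓝 0) →
  Tendsto (fun k : ℕ => EN (lpn μ 1) (X ^ k)) atTop (𝓝 0)

/-- row ABO (needs OPA STR UNI). `opn μ p (str f) ≤ lpn μ 1 (str f) = lpn μ 1 f`; `str` is conjugate linear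
and antimultiplicative. The maximum of two seminorms is one. -/
def ABOStmt : Prop := ∀ (G : Type) [Group G] [TopologicalSpace G] [IsTopologicalGroup G]
  [LocallyCompactSpace G] [T2Space G] [MeasurableSpace G] [BorelSpace G] (μ : Measure G)
  [μ.IsHaarMeasure] (p : ℝ≥0∞), 1 ≤ p →
  IsSN (fun f => max (opn μ p f) (opn μ p (str f))) ∧
  (∀ f g, max (opn μ p (f * g)) (opn μ p (str (f * g))) ≤
    max (opn μ p f) (opn μ p (str f)) * max (opn μ p g) (opn μ p (str g))) ∧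
  (Subexponential μ → ∀ f, max (opn μ p f) (opn μ p (str f)) ≤ lpn μ 1 f)

/-- row ONE (needs OPA). `≤` is OPA. `≥`: for `ε > 0` let `g(z) = conj f(z⁻¹) / (|f(z⁻¹)| + ε)`, in
`C_c(G)`, `|g| ≤ 1`. `(f * g)(1) = ∫ f(y) g(y⁻¹) dy = ∫ |f|² / (|f| + ε) ≥ ‖f‖₁ - ε μ(supp f)`, and
`|(f * g)(1)| ≤ ‖f * g‖_∞` by continuity (`μ` is positive on open sets). -/
def ONEStmt : Prop := ∀ (G : Type) [Group G] [TopologicalSpace G] [IsTopologicalGroup G]
  [LocallyCompactSpace G] [T2Space G] [MeasurableSpace G] [BorelSpace G] (μ : Measure G)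
  [μ.IsHaarMeasure], ∀ f : CG μ, opn μ ∞ f = lpn μ 1 f

end Pool.PK
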