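import Pool.Agent.H80.PK.KB0

/-! # Board pkt, row KB1 -/

set_option autoImplicit false

namespace Pool.PK

open Filter Topology

section

variable {R : Type} [Ring R] [TopologicalSpace R]

theorem kb_uj_symm {a b : R} (h : UJoined a b) : UJoined b a := JoinedIn.symm h

theorem kb_uj_trans {a b c : R} (h : UJoined a b) (h' : UJoined b c) : UJoined a c :=
  JoinedIn.trans h h'

end

section

variable {A : Type} [Ring A] [TopologicalSpace A] {n m : ℕ}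

theorem kb_cont_bsum : Continuous fun p : Mat A n × Mat A m => bsum p.1 p.2 := by
  refine continuous_pi fun i => continuous_pi fun j => ?_
  unfold bsum
  simp only [Matrix.reindex_apply, Matrix.submatrix_apply]
  rcases finSumFinEquiv.symm i with i' | i' <;> rcases finSumFinEquiv.symm j with j' | j' <;>
    simp only [Matrix.fromBlocks_apply₁₁, Matrix.fromBlocks_apply₁₂, Matrix.fromBlocks_apply₂₁,
      Matrix.fromBlocks_apply₂₂, Matrix.zero_apply]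
  · exact (continuous_apply_apply i' j').comp continuous_fst
  · exact continuous_const
  · exact continuous_const
  · exact (continuous_apply_apply i' j').comp continuous_snd

theorem kb_uj_bsum {a a' : Mat A n} {b b' : Mat A m} (h : UJoined a a') (h' : UJoined b b') :
    UJoined (bsum a b) (bsum a' b') := by
  obtain ⟨γ, hγ⟩ := h
  obtain ⟨δ, hδ⟩ := h'
  refine ⟨(γ.prod δ).map kb_cont_bsum, fun t => ?_⟩
  exact kb_isUnit_bsum (hγ t) (hδ t)

/-- the class of an invertible matrix -/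
def kbCl1 (p : Σ n, (Mat A n)ˣ) : K1 A := QuotientAddGroup.mk (FreeAbelianGroup.of p)

theorem kb_cl1_uj (u v : (Mat A n)ˣ) (h : UJoined (u : Mat A n) (v : Mat A n)) :
    kbCl1 (⟨n, u⟩ : Σ n, (Mat A n)ˣ) = kbCl1 ⟨n, v⟩ := by
  unfold kbCl1
  rw [QuotientAddGroup.eq]
  have h1 : FreeAbelianGroup.of (⟨n, v⟩ : Σ n, (Mat A n)ˣ) - FreeAbelianGroup.of ⟨n, u⟩ ∈
      AddSubgroup.closure (rel1 A) :=
    AddSubgroup.subset_closure (Or.inl ⟨n, v, u, kb_uj_symm h, rfl⟩)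
  rwa [sub_eq_neg_add] at h1

theorem kb_cl1_bsum (u : (Mat A n)ˣ) (v : (Mat A m)ˣ) (w : (Mat A (n + m))ˣ)
    (h : (w : Mat A (n + m)) = bsum (u : Mat A n) (v : Mat A m)) :
    kbCl1 (⟨n + m, w⟩ : Σ n, (Mat A n)ˣ) = kbCl1 ⟨n, u⟩ + kbCl1 ⟨m, v⟩ := by
  have h1 : FreeAbelianGroup.of (⟨n + m, w⟩ : Σ n, (Mat A n)ˣ) - FreeAbelianGroup.of ⟨n, u⟩ -
      FreeAbelianGroup.of ⟨m, v⟩ ∈ AddSubgroup.closure (rel1 A) :=
    AddSubgroup.subset_closure (Or.inr (Or.inl ⟨n, m, u, v, w, h, rfl⟩))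
  have h2 := (QuotientAddGroup.eq_zero_iff _).2 h1
  rw [QuotientAddGroup.mk_sub, QuotientAddGroup.mk_sub] at h2
  have h3 : kbCl1 (⟨n + m, w⟩ : Σ n, (Mat A n)ˣ) - kbCl1 ⟨n, u⟩ - kbCl1 ⟨m, v⟩ = 0 := h2
  rw [sub_sub, sub_eq_zero] at h3
  exact h3

theorem kb_cl1_one (n : ℕ) : kbCl1 (⟨n, 1⟩ : Σ n, (Mat A n)ˣ) = 0 :=
  (QuotientAddGroup.eq_zero_iff _).2
    (AddSubgroup.subset_closure (Or.inr (Or.inr ⟨n, rfl⟩)))

/-- the block sum of invertible matrices -/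
def kbUsum (u : (Mat A n)ˣ) (v : (Mat A m)ˣ) : (Mat A (n + m))ˣ :=
  ⟨bsum (u : Mat A n) (v : Mat A m), bsum (↑u⁻¹ : Mat A n) (↑v⁻¹ : Mat A m),
    by rw [kb_bsum_mul, Units.mul_inv, Units.mul_inv, kb_bsum_one],
    by rw [kb_bsum_mul, Units.inv_mul, Units.inv_mul, kb_bsum_one]⟩

end

theorem KB1 : KB1Stmt := by
  intro A B _ _ _ _ _ _ φ hφ hS hI
  choose lf hlf using hS
  let ψ : FreeAbelianGroup (Σ n, (Mat B n)ˣ) →+ K1 A :=
    FreeAbelianGroup.lift fun p => kbCl1 ⟨p.1, lf p.1 p.2⟩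
  have hψof : ∀ p : Σ n, (Mat B n)ˣ, ψ (FreeAbelianGroup.of p) = kbCl1 ⟨p.1, lf p.1 p.2⟩ :=
    fun p => FreeAbelianGroup.lift_apply_of _ _
  have hψ : AddSubgroup.closure (rel1 B) ≤ ψ.ker := by
    rw [AddSubgroup.closure_le]
    intro z hz
    show ψ z = 0
    rcases hz with ⟨n, u, v, huv, rfl⟩ | ⟨n, m, u, v, w, hw, rfl⟩ | ⟨n, rfl⟩
    · rw [map_sub, hψof, hψof, sub_eq_zero]
      exact kb_cl1_uj _ _ (hI n _ _
        (kb_uj_trans (kb_uj_trans (hlf n u) huv) (kb_uj_symm (hlf n v))))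
    · rw [map_sub, map_sub, hψof, hψof, hψof, sub_sub, sub_eq_zero]
      have h1 : kbCl1 (⟨n + m, lf (n + m) w⟩ : Σ n, (Mat A n)ˣ) =
          kbCl1 ⟨n + m, kbUsum (lf n u) (lf m v)⟩ := by
        refine kb_cl1_uj _ _ (hI (n + m) _ _ ?_)
        have h2 : φ.mapMatrix (kbUsum (lf n u) (lf m v) : Mat A (n + m)) =
            bsum (φ.mapMatrix (lf n u : Mat A n)) (φ.mapMatrix (lf m v : Mat A m)) :=
          map_bsum φ _ _
        rw [h2]
        refine kb_uj_trans (hlf (n + m) w) ?_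
        rw [hw]
        exact kb_uj_bsum (kb_uj_symm (hlf n u)) (kb_uj_symm (hlf m v))
      exact h1.trans (kb_cl1_bsum _ _ _ rfl)
    · rw [hψof]
      have h1 : kbCl1 (⟨n, lf n 1⟩ : Σ n, (Mat A n)ˣ) = kbCl1 ⟨n, 1⟩ := by
        refine kb_cl1_uj _ _ (hI n _ _ ?_)
        have h2 : φ.mapMatrix ((1 : (Mat A n)ˣ) : Mat A n) = ((1 : (Mat B n)ˣ) : Mat B n) := by
          rw [Units.val_one, Units.val_one, map_one]
        rw [h2]
        exact hlf n 1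
      exact h1.trans (kb_cl1_one n)
  let ψ' : K1 B →+ K1 A := QuotientAddGroup.lift _ ψ hψ
  have hψ' : ∀ p : Σ n, (Mat B n)ˣ, ψ' (kbCl1 p) = kbCl1 ⟨p.1, lf p.1 p.2⟩ := fun p => hψof p
  have hK : ∀ p : Σ n, (Mat A n)ˣ, K1map φ hφ (kbCl1 p) = kbCl1 (gen1 φ p) := by
    intro p
    show (QuotientAddGroup.mk (FreeAbelianGroup.map (gen1 φ) (FreeAbelianGroup.of p)) : K1 B) = _
    rw [FreeAbelianGroup.map_of_apply]
    rfl
  have h1 : ψ'.comp (K1map φ hφ) = AddMonoidHom.id (K1 A) := by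
    refine QuotientAddGroup.addMonoidHom_ext _ ?_
    refine FreeAbelianGroup.lift_ext _ _ ?_
    intro p
    show ψ' (K1map φ hφ (kbCl1 p)) = kbCl1 p
    rw [hK, hψ']
    exact kb_cl1_uj _ _ (hI p.1 _ _ (hlf p.1 (gen1 φ p).2))
  have h2 : (K1map φ hφ).comp ψ' = AddMonoidHom.id (K1 B) := by
    refine QuotientAddGroup.addMonoidHom_ext _ ?_
    refine FreeAbelianGroup.lift_ext _ _ ?_
    intro p
    show K1map φ hφ (ψ' (kbCl1 p)) = kbCl1 p
    rw [hψ', hK]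
    exact kb_cl1_uj _ _ (hlf p.1 p.2)
  exact ⟨Function.LeftInverse.injective (g := ψ') fun x => DFunLike.congr_fun h1 x,
    Function.RightInverse.surjective (g := ψ') fun x => DFunLike.congr_fun h2 x⟩

end Pool.PK
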