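import Mathlib

/-!
# K-theory of topological rings

Definitions for the board `pkt` (MP_70b9d9_an).
-/

set_option autoImplicit false

namespace Pool.PK

open Filter Topology

/-- square matrices -/
abbrev Mat (A : Type) (n : ℕ) : Type := Matrix (Fin n) (Fin n) A

/-- idempotent matrices -/
def Idem (A : Type) [Ring A] (n : ℕ) : Type := {e : Mat A n // e * e = e}

/-- block sum `a ⊕ b` -/
def bsum {A : Type} [Ring A] {n m : ℕ} (a : Mat A n) (b : Mat A m) : Mat A (n + m) :=
  Matrix.reindex finSumFinEquiv finSumFinEquiv (Matrix.fromBlocks a 0 0 b)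

/-- `e` and `f` are similar: `u e u⁻¹ = f` for a unit `u` -/
def Similar {R : Type} [Ring R] (e f : R) : Prop := ∃ u : R, IsUnit u ∧ u * e = f * u

/-- `a` and `b` are joined by a path of units -/
def UJoined {R : Type} [Ring R] [TopologicalSpace R] (a b : R) : Prop :=
  JoinedIn {x : R | IsUnit x} a b

/-- idempotent matrices of all sizes -/
abbrev Gen0 (A : Type) [Ring A] : Type := Σ n, Idem A n

/-- relations of `K₀` -/
def rel0 (A : Type) [Ring A] : Set (FreeAbelianGroup (Gen0 A)) :=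
  {z | ∃ (n : ℕ) (e f : Idem A n), Similar e.1 f.1 ∧
    z = FreeAbelianGroup.of ⟨n, e⟩ - FreeAbelianGroup.of ⟨n, f⟩} ∪
  ({z | ∃ (n m : ℕ) (e : Idem A n) (f : Idem A m) (g : Idem A (n + m)), g.1 = bsum e.1 f.1 ∧
    z = FreeAbelianGroup.of ⟨n + m, g⟩ - FreeAbelianGroup.of ⟨n, e⟩ - FreeAbelianGroup.of ⟨m, f⟩} ∪
  {z | ∃ (n : ℕ) (e : Idem A n), e.1 = 0 ∧ z = FreeAbelianGroup.of ⟨n, e⟩})

/-- `K₀` of a unital ring: generated by the idempotent matrices; similar ones are equal, the block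
sum is the sum, `0 = 0` -/
abbrev K0 (A : Type) [Ring A] : Type :=
  FreeAbelianGroup (Gen0 A) ⧸ AddSubgroup.closure (rel0 A)

/-- invertible matrices of all sizes -/
abbrev Gen1 (A : Type) [Ring A] : Type := Σ n, (Mat A n)ˣ

/-- relations of `K₁` -/
def rel1 (A : Type) [Ring A] [TopologicalSpace A] : Set (FreeAbelianGroup (Gen1 A)) :=
  {z | ∃ (n : ℕ) (u v : (Mat A n)ˣ), UJoined (u : Mat A n) (v : Mat A n) ∧
    z = FreeAbelianGroup.of ⟨n, u⟩ - FreeAbelianGroup.of ⟨n, v⟩} ∪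
  ({z | ∃ (n m : ℕ) (u : (Mat A n)ˣ) (v : (Mat A m)ˣ) (w : (Mat A (n + m))ˣ),
    (w : Mat A (n + m)) = bsum (u : Mat A n) (v : Mat A m) ∧
    z = FreeAbelianGroup.of ⟨n + m, w⟩ - FreeAbelianGroup.of ⟨n, u⟩ - FreeAbelianGroup.of ⟨m, v⟩} ∪
  {z | ∃ n : ℕ, z = FreeAbelianGroup.of ⟨n, 1⟩})

/-- `K₁` of a unital topological ring: generated by the invertible matrices; matrices joined by a
path of invertible matrices are equal, the block sum is the sum, the unit matrices are `0` -/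
abbrev K1 (A : Type) [Ring A] [TopologicalSpace A] : Type :=
  FreeAbelianGroup (Gen1 A) ⧸ AddSubgroup.closure (rel1 A)

end Pool.PK
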