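import Pool.Agent.H80.PK.KBase

/-!
# K-theory of topological rings, comparison of Banach algebras

Definitions for the board `pkt` (MP_70b9d9_an).
-/

set_option autoImplicit false

namespace Pool.PK

open Filter Topology

section maps

variable {A B : Type} [Ring A] [Ring B]

/-- image of an idempotent matrix -/
def idemMap (φ : A →+* B) {n : ℕ} (e : Idem A n) : Idem B n :=
  ⟨φ.mapMatrix e.1, by rw [← map_mul, e.2]⟩

theorem map_bsum (φ : A →+* B) {n m : ℕ} (a : Mat A n) (b : Mat A m) :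
    φ.mapMatrix (bsum a b) = bsum (φ.mapMatrix a) (φ.mapMatrix b) := by
  ext i j
  simp only [bsum, RingHom.mapMatrix_apply, Matrix.map_apply, Matrix.reindex_apply,
    Matrix.submatrix_apply]
  rcases h1 : finSumFinEquiv.symm i with i' | i' <;> rcases h2 : finSumFinEquiv.symm j with j' | j' <;>
    simp [Matrix.fromBlocks]

/-- the map on generators of `K₀` -/
def gen0 (φ : A →+* B) (p : Σ n, Idem A n) : Σ n, Idem B n := ⟨p.1, idemMap φ p.2⟩

theorem gen0_rel (φ : A →+* B) :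
    AddSubgroup.closure (rel0 A) ≤
      (AddSubgroup.closure (rel0 B)).comap (FreeAbelianGroup.map (gen0 φ)) := by
  rw [AddSubgroup.closure_le]
  intro z hz
  show FreeAbelianGroup.map (gen0 φ) z ∈ AddSubgroup.closure (rel0 B)
  apply AddSubgroup.subset_closure
  rcases hz with ⟨n, e, f, ⟨u, hu, huv⟩, rfl⟩ | ⟨n, m, e, f, g, hg, rfl⟩ | ⟨n, e, he, rfl⟩
  · refine Or.inl ⟨n, idemMap φ e, idemMap φ f, ⟨φ.mapMatrix u, hu.map φ.mapMatrix, ?_⟩, ?_⟩
    · simp only [idemMap]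
      rw [← map_mul, huv, map_mul]
    · simp [gen0]
  · refine Or.inr (Or.inl ⟨n, m, idemMap φ e, idemMap φ f, idemMap φ g, ?_, ?_⟩)
    · simp only [idemMap]
      rw [hg, map_bsum]
    · simp [gen0]
  · refine Or.inr (Or.inr ⟨n, idemMap φ e, ?_, ?_⟩)
    · simp only [idemMap]
      rw [he, map_zero]
    · simp [gen0]

/-- the homomorphism `K₀(φ)` -/
def K0map (φ : A →+* B) : K0 A →+ K0 B :=
  QuotientAddGroup.map _ _ (FreeAbelianGroup.map (gen0 φ)) (gen0_rel φ)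

/-- the map on generators of `K₁` -/
def gen1 (φ : A →+* B) (p : Σ n, (Mat A n)ˣ) : Σ n, (Mat B n)ˣ :=
  ⟨p.1, Units.map (φ.mapMatrix : Mat A p.1 →+* Mat B p.1).toMonoidHom p.2⟩

theorem continuous_mapMatrix [TopologicalSpace A] [TopologicalSpace B] (φ : A →+* B)
    (hφ : Continuous φ) (n : ℕ) : Continuous (φ.mapMatrix : Mat A n → Mat B n) :=
  continuous_pi fun i => continuous_pi fun j => hφ.comp (continuous_apply_apply i j)

theorem UJoined.map [TopologicalSpace A] [TopologicalSpace B] (φ : A →+* B)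
    (hφ : Continuous φ) {a b : A} (h : UJoined a b) : UJoined (φ a) (φ b) := by
  obtain ⟨γ, hγ⟩ := h
  exact ⟨γ.map hφ, fun t => (hγ t).map φ⟩

theorem gen1_rel [TopologicalSpace A] [TopologicalSpace B] (φ : A →+* B) (hφ : Continuous φ) :
    AddSubgroup.closure (rel1 A) ≤
      (AddSubgroup.closure (rel1 B)).comap (FreeAbelianGroup.map (gen1 φ)) := by
  rw [AddSubgroup.closure_le]
  intro z hz
  show FreeAbelianGroup.map (gen1 φ) z ∈ AddSubgroup.closure (rel1 B)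
  apply AddSubgroup.subset_closure
  rcases hz with ⟨n, u, v, huv, rfl⟩ | ⟨n, m, u, v, w, hw, rfl⟩ | ⟨n, rfl⟩
  · refine Or.inl ⟨n, (gen1 φ ⟨n, u⟩).2, (gen1 φ ⟨n, v⟩).2,
      UJoined.map (φ.mapMatrix : Mat A n →+* Mat B n) (continuous_mapMatrix φ hφ n) huv, ?_⟩
    rw [map_sub]
    rfl
  · refine Or.inr (Or.inl ⟨n, m, (gen1 φ ⟨n, u⟩).2, (gen1 φ ⟨m, v⟩).2, (gen1 φ ⟨n + m, w⟩).2, ?_, ?_⟩)
    · show φ.mapMatrix (w : Mat A (n + m)) = bsum (φ.mapMatrix (u : Mat A n)) (φ.mapMatrix (v : Mat A m))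
      rw [hw, map_bsum]
    · rw [map_sub, map_sub]
      rfl
  · refine Or.inr (Or.inr ⟨n, ?_⟩)
    rw [FreeAbelianGroup.map_of_apply]
    simp [gen1]

/-- the homomorphism `K₁(φ)` -/
def K1map [TopologicalSpace A] [TopologicalSpace B] (φ : A →+* B) (hφ : Continuous φ) :
    K1 A →+ K1 B :=
  QuotientAddGroup.map _ _ (FreeAbelianGroup.map (gen1 φ)) (gen1_rel φ hφ)

end maps

/-! ## Comparison of Banach algebras -/

/-- `ι : U → A` and `φ ∘ ι : U → B` have dense range, and `x ∈ U` is topologically nilpotent in `A` if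
it is in `B` (relatively spectral morphism) -/
def RS {A B U : Type} [NormedRing A] [NormedAlgebra ℂ A] [NormedRing B] [NormedAlgebra ℂ B]
    [Ring U] [Algebra ℂ U] (ι : U →ₐ[ℂ] A) (φ : A →ₐ[ℂ] B) : Prop :=
  Continuous φ ∧ DenseRange ι ∧ DenseRange (fun x => φ (ι x)) ∧
  ∀ x : U, Tendsto (fun k : ℕ => (φ (ι x)) ^ k) atTop (𝓝 0) → Tendsto (fun k : ℕ => (ι x) ^ k) atTop (𝓝 0)

/-- coefficients of `(1 - y) ^ (-1/2)` -/
noncomputable def co : ℕ → ℝ
  | 0 => 1
  | k + 1 => co k * ((2 * k + 1) / (2 * k + 2))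

/-- `4 x (1 - x)` -/
def dev {A : Type} [Ring A] (x : A) : A := 4 * (x * (1 - x))

/-- the idempotent near `x`: `(1 + (2 x - 1) (1 - 4 x (1 - x)) ^ (-1/2)) / 2` -/
noncomputable def hfc {A : Type} [NormedRing A] [NormedAlgebra ℂ A] (x : A) : A :=
  ((1 / 2 : ℂ)) • (1 + (2 * x - 1) * ∑' k : ℕ, ((co k : ℝ) : ℂ) • (dev x) ^ k)

end Pool.PK
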