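import Pool.Agent.H80.PK.KDefs

/-!
# Board `pkt`, first batch (general Banach algebras)

Row `XXX` is the statement `XXXStmt`; the file `Pool/Agent/H80/PK/XXX.lean` proves
`theorem Pool.PK.XXX (h1 : YYYStmt) ... : XXXStmt` (`YYY` the rows in the column `needs`; fewer
hypotheses are fine).

Goal: a relatively spectral morphism with dense range induces isomorphisms on `K₀` and `K₁`.
-/

set_option autoImplicit false

namespace Pool.PK

open Filter Topology

/-- row INV. Units are open and dense range: choose `y : U` with `φ (ι y)` so near to the inverse of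
`φ (ι x)` that `‖1 - φ (ι (x * y))‖ < 1` and `‖1 - φ (ι (y * x))‖ < 1`. So the powers of
`φ (ι (1 - x * y))` tend to 0, by `RS` those of `z = ι (1 - x * y)` too, so `‖z ^ k‖ < 1` for some
`k ≥ 1`, `1 - z ^ k` is a unit and `1 - z` divides it on both sides: `ι (x * y)` is a unit. The same
for `ι (y * x)`. So `ι x` has a right and a left inverse. -/
def INVStmt : Prop := ∀ (A B U : Type) [NormedRing A] [NormedAlgebra ℂ A] [CompleteSpace A]
  [NormedRing B] [NormedAlgebra ℂ B] [CompleteSpace B] [Ring U] [Algebra ℂ U]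
  (ι : U →ₐ[ℂ] A) (φ : A →ₐ[ℂ] B), RS ι φ → ∀ x : U, IsUnit (φ (ι x)) → IsUnit (ι x)

/-- row K1S. A ball around `b` consists of units; `φ (ι x)` in this ball, `a = ι x`, INV; the segment
from `φ (ι x)` to `b` is in the ball. -/
def K1SStmt : Prop := ∀ (A B U : Type) [NormedRing A] [NormedAlgebra ℂ A] [CompleteSpace A]
  [NormedRing B] [NormedAlgebra ℂ B] [CompleteSpace B] [Ring U] [Algebra ℂ U]
  (ι : U →ₐ[ℂ] A) (φ : A →ₐ[ℂ] B), RS ι φ → ∀ b : B, IsUnit b → ∃ a : A, IsUnit a ∧ UJoined (φ a) b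

/-- row K1I. For a unit `b` of `B` choose a radius `r b` such that the ball around `b` consists of units;
all `ι x`, `x : U`, with `φ (ι x)` in this ball are units (INV) and joined by segments in the units of
`A` (the segment from `x` to `x'` in `U` is mapped into the ball; INV). This gives a map from the units
of `B` to the path components of the units of `A`, it is locally constant (two near `b`, `b'` have a
common `x`), so constant along the path; and for a unit `a` of `A` the value at `φ a` is the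
component of `a` (choose `x` with `ι x` near `a`: the segment from `a` to `ι x` is in the units). -/
def K1IStmt : Prop := ∀ (A B U : Type) [NormedRing A] [NormedAlgebra ℂ A] [CompleteSpace A]
  [NormedRing B] [NormedAlgebra ℂ B] [CompleteSpace B] [Ring U] [Algebra ℂ U]
  (ι : U →ₐ[ℂ] A) (φ : A →ₐ[ℂ] B), RS ι φ → ∀ a a' : A, IsUnit a → IsUnit a' →
  UJoined (φ a) (φ a') → UJoined a a'

/-- row SIM (near idempotents are similar). `u = f e + (1 - f) (1 - e)` satisfies `u e = f e = f u`,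
and `u → e e + (1 - e) (1 - e) = 1` for `f → e`, so `u` is a unit for `f` near `e`. -/
def SIMStmt : Prop := ∀ (A : Type) [NormedRing A] [CompleteSpace A] (e : A), e * e = e →
  ∃ δ : ℝ, 0 < δ ∧ ∀ f : A, f * f = f → ‖f - e‖ < δ → Similar e f

/-- row COE. Induction on `k`: `i * co i = (i - 1/2) * co (i - 1)` for `i ≥ 1`, so with
`S k = ∑_(i+j=k) co i co j`: `(k+1) S (k+1) = 2 ∑_(i+j=k+1) i co i co j = 2 ∑_(i+j=k) (i + 1/2) co i co j
= k S k + S k` (symmetry). -/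
def COEStmt : Prop := (∀ k, 0 ≤ co k ∧ co k ≤ 1) ∧
  ∀ k, ∑ p ∈ Finset.HasAntidiagonal.antidiagonal k, co p.1 * co p.2 = 1

/-- row SUM. From `y ^ k → 0` get `m ≥ 1` with `‖y ^ m‖ < 1/2`, so `‖y ^ k‖ ≤ C ρ ^ k`. -/
def SUMStmt : Prop := ∀ (A : Type) [NormedRing A] [NormedAlgebra ℂ A] [CompleteSpace A] (y : A),
  Tendsto (fun k : ℕ => y ^ k) atTop (𝓝 0) → ∃ (C ρ : ℝ), 0 < C ∧ 0 < ρ ∧ ρ < 1 ∧
  ∀ k, ‖y ^ k‖ ≤ C * ρ ^ k

/-- row HFI. With `y = dev x`, `s = ∑ co k y ^ k`: `s * s * (1 - y) = 1` (Cauchy product, COE, geometric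
series), `(2 x - 1) ^ 2 = 1 - y`, everything commutes, so `(2 hfc x - 1) ^ 2 = 1`. -/
def HFIStmt : Prop := ∀ (A : Type) [NormedRing A] [NormedAlgebra ℂ A] [CompleteSpace A] (x : A),
  Tendsto (fun k : ℕ => (dev x) ^ k) atTop (𝓝 0) → hfc x * hfc x = hfc x

/-- row HFF. `dev x = 0`, the series is `1`. -/
def HFFStmt : Prop := ∀ (A : Type) [NormedRing A] [NormedAlgebra ℂ A] [CompleteSpace A] (x : A),
  x * x = x → hfc x = x

/-- row HFN. `φ` is continuous and linear, the series converges (SUM, COE). -/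
def HFNStmt : Prop := ∀ (A B : Type) [NormedRing A] [NormedAlgebra ℂ A] [CompleteSpace A]
  [NormedRing B] [NormedAlgebra ℂ B] [CompleteSpace B] (φ : A →ₐ[ℂ] B) (x : A), Continuous φ →
  Tendsto (fun k : ℕ => (dev x) ^ k) atTop (𝓝 0) → φ (hfc x) = hfc (φ x)

/-- row HFC. Choose `m ≥ 1` with `‖(dev x) ^ m‖ < 1/2`; for `x'` near `x`: `‖(dev x') ^ m‖ < 1/2` and
`‖(dev x') ^ j‖ ≤ M` for `j < m`, so `‖(dev x') ^ k‖ ≤ M (1/2) ^ (k / m)`: the series converges
uniformly near `x` (`co k ≤ 1`). -/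
def HFCStmt : Prop := ∀ (A : Type) [NormedRing A] [NormedAlgebra ℂ A] [CompleteSpace A] (x : A),
  Tendsto (fun k : ℕ => (dev x) ^ k) atTop (𝓝 0) → ContinuousAt (hfc : A → A) x

/-- row PTH. By SIM the set of `t` with `Similar (p 0) (p t)` is open and closed in `[0, 1]`. -/
def PTHStmt : Prop := ∀ (A : Type) [NormedRing A] [NormedAlgebra ℂ A] [CompleteSpace A] (p : ℝ → A),
  ContinuousOn p (Set.Icc 0 1) → (∀ t ∈ Set.Icc (0 : ℝ) 1, p t * p t = p t) → Similar (p 0) (p 1)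

/-- row K0S. A ball around `f` where `‖dev z‖ < 1`; `x : U` with `φ (ι x)` in the ball. So the powers
of `φ (ι (dev x))` tend to 0, hence those of `ι (dev x) = dev (ι x)`; `e = hfc (ι x)` (HFI),
`φ e = hfc (φ (ι x))` (HFN), and `t ↦ hfc ((1 - t) φ (ι x) + t f)` is a path of idempotents from `φ e`
to `hfc f = f` (HFI, HFC, HFF); PTH. -/
def K0SStmt : Prop := ∀ (A B U : Type) [NormedRing A] [NormedAlgebra ℂ A] [CompleteSpace A]
  [NormedRing B] [NormedAlgebra ℂ B] [CompleteSpace B] [Ring U] [Algebra ℂ U]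
  (ι : U →ₐ[ℂ] A) (φ : A →ₐ[ℂ] B), RS ι φ → ∀ f : B, f * f = f → ∃ e : A, e * e = e ∧ Similar (φ e) f

/-- row K0I. Let `u φ(e) = φ(f) u`. (1) Let `δ > 0` be such that `‖dev z‖ < 1` for `‖z - φ f‖ < δ`. For
`w : U` with `φ (ι w)` near `u`: `φ (ι w)` is a unit, so `a = ι w` is a unit (INV), `e1 = a e a⁻¹` is
similar to `e`, and `‖φ e1 - φ f‖ < δ` (as `φ(a) φ(e) φ(a)⁻¹ → u φ(e) u⁻¹ = φ(f)`). (2) Choose
`x : U` with `ι x` near `e1`, `z : U` with `ι z` near `f`: the segments from `e1` to `ι x` and from `f` to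
`ι z` are in balls where `‖dev‖ < 1`, and `‖φ (ι x) - φ f‖ < δ`, `‖φ (ι z) - φ f‖ < δ`. (3) The paths
`hfc` of these segments (HFI, HFC, HFF, PTH) give `e1 ~ hfc (ι x)`, `f ~ hfc (ι z)`. (4) For
`x_t = (1 - t) x + t z` in `U`: `‖φ (ι x_t) - φ f‖ < δ`, so the powers of `φ (ι (dev x_t))` tend to 0,
hence those of `dev (ι x_t)` by `RS`, and `hfc (ι x_t)` is a path: `hfc (ι x) ~ hfc (ι z)`. `Similar` is
an equivalence relation. -/
def K0IStmt : Prop := ∀ (A B U : Type) [NormedRing A] [NormedAlgebra ℂ A] [CompleteSpace A]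
  [NormedRing B] [NormedAlgebra ℂ B] [CompleteSpace B] [Ring U] [Algebra ℂ U]
  (ι : U →ₐ[ℂ] A) (φ : A →ₐ[ℂ] B), RS ι φ → ∀ e f : A, e * e = e → f * f = f →
  Similar (φ e) (φ f) → Similar e f

/-- row KB0. Inverse map: on the generator `f` the class of a lift `e` (`φ e ~ f`, first hypothesis).
Relations: similar `f ~ f'`: `φ e ~ f ~ f' ~ φ e'`, so `e ~ e'`. `g = bsum f f'`: `φ (bsum e e') =
bsum (φ e) (φ e') ~ bsum f f' = g ~ φ e_g`, so `e_g ~ bsum e e'`. `f = 0`: `φ e ~ 0 = φ 0`, so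
`e ~ 0`. (`Similar` is an equivalence relation compatible with `bsum`; `map_bsum`.) Use
`FreeAbelianGroup.lift`, `QuotientAddGroup.lift`. -/
def KB0Stmt : Prop := ∀ (A B : Type) [Ring A] [Ring B] (φ : A →+* B),
  (∀ (n : ℕ) (f : Idem B n), ∃ e : Idem A n, Similar (φ.mapMatrix e.1) f.1) →
  (∀ (n : ℕ) (e f : Idem A n), Similar (φ.mapMatrix e.1) (φ.mapMatrix f.1) → Similar e.1 f.1) →
  Function.Bijective (K0map φ)

/-- row KB1. As KB0 (`UJoined` is an equivalence relation on units, compatible with `bsum`, which is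
continuous). -/
def KB1Stmt : Prop := ∀ (A B : Type) [Ring A] [Ring B] [TopologicalSpace A] [IsTopologicalRing A]
  [TopologicalSpace B] [IsTopologicalRing B] (φ : A →+* B) (hφ : Continuous φ),
  (∀ (n : ℕ) (v : (Mat B n)ˣ), ∃ u : (Mat A n)ˣ,
    UJoined (φ.mapMatrix (u : Mat A n)) (v : Mat B n)) →
  (∀ (n : ℕ) (u v : (Mat A n)ˣ), UJoined (φ.mapMatrix (u : Mat A n)) (φ.mapMatrix (v : Mat A n)) →
    UJoined (u : Mat A n) (v : Mat A n)) →
  Function.Bijective (K1map φ hφ)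

/-- row MKT. Apply K0S, K0I, K1S, K1I to the algebras `Mat A n`, `Mat B n`, `Mat U n` with the norms
`Matrix.linftyOpNormedRing`, `Matrix.linftyOpNormedAlgebra` (local instances; they induce the usual
topology of `Matrix`, `CompleteSpace` by inference) and the maps `AlgHom.mapMatrix`, then KB0, KB1. -/
def MKTStmt : Prop := ∀ (A B U : Type) [NormedRing A] [NormedAlgebra ℂ A] [CompleteSpace A]
  [NormedRing B] [NormedAlgebra ℂ B] [CompleteSpace B] [Ring U] [Algebra ℂ U]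
  (ι : U →ₐ[ℂ] A) (φ : A →ₐ[ℂ] B) (hφ : Continuous (φ : A →+* B)), DenseRange ι →
  DenseRange (fun x => φ (ι x)) →
  (∀ (n : ℕ) (X : Mat U n),
    Tendsto (fun k : ℕ => ((X.map (fun u => φ (ι u)) : Mat B n)) ^ k) atTop (𝓝 0) →
    Tendsto (fun k : ℕ => ((X.map (fun u => ι u) : Mat A n)) ^ k) atTop (𝓝 0)) →
  Function.Bijective (K0map (φ : A →+* B)) ∧ Function.Bijective (K1map (φ : A →+* B) hφ)

/-! ## The growth estimate -/

/-- a seminorm -/
def IsSN {C : Type} [AddCommGroup C] [Module ℂ C] (N : C → ℝ) : Prop :=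
  (∀ f, 0 ≤ N f) ∧ (∀ f g, N (f + g) ≤ N f + N g) ∧ ∀ (c : ℂ) (f : C), N (c • f) = ‖c‖ * N f

/-- norm of a matrix over the unitization -/
noncomputable def EN {C : Type} [AddCommGroup C] (N : C → ℝ) {n : ℕ} (X : Mat (Unitization ℂ C) n) : ℝ :=
  ∑ i, ∑ j, (‖(X i j).fst‖ + N (X i j).snd)

/-- row ABS. Write `X = Λ + F` (`Λ` the matrix of the first, `F` of the second components; `Mat ℂ n` and
`Mat C n`), `X ^ k = Λ ^ k + F_k`, `F_k = ∑_(j<k) X ^ j F Λ ^ (k-1-j)`; the entries of `F_k` are in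
`S k`. `EN M` is submultiplicative, so `EN M (X ^ k) → 0` gives `EN M (X ^ k) ≤ A ρ ^ k`, `ρ < 1`
(`A ≥ 1`). With `V' F = ∑ V (F i j)`: `V' (X H) ≤ EN M X * V' H` for matrices `H` over `C`, so
`V' F_k ≤ k A ^ 2 ρ ^ (k-1) V' F`, and `∑ N1 (F_k i j) ≤ g k * V' F_k → 0` (take `c > 1` with
`c ρ < 1`). And `‖Λ ^ k‖ ≤ EN M (X ^ k) → 0`. (Instead of the formula for `F_k` use the recursion
`F_(k+1) = X F_k + F Λ ^ k`, `X ^ (k+1) = X X ^ k`; iterate it.) -/
def ABSStmt : Prop := ∀ (C : Type) [NonUnitalRing C] [Module ℂ C] [IsScalarTower ℂ C C]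
  [SMulCommClass ℂ C C] (N1 M V : C → ℝ) (S : ℕ → Submodule ℂ C) (g : ℕ → ℝ),
  IsSN N1 → IsSN M → IsSN V → (∀ f h, M (f * h) ≤ M f * M h) → (∀ f h, V (f * h) ≤ M f * V h) →
  (∀ k, S k ≤ S (k + 1)) → (∀ j k, ∀ f ∈ S j, ∀ h ∈ S k, f * h ∈ S (j + k)) →
  (∀ k, 0 ≤ g k) → (∀ k, ∀ f ∈ S k, N1 f ≤ g k * V f) →
  (∀ c : ℝ, 1 < c → ∃ A : ℝ, ∀ k, g k ≤ A * c ^ k) →
  ∀ (n : ℕ) (X : Mat (Unitization ℂ C) n), (∀ i j, (X i j).snd ∈ S 1) →
  Tendsto (fun k : ℕ => EN M (X ^ k)) atTop (𝓝 0) → Tendsto (fun k : ℕ => EN N1 (X ^ k)) atTop (𝓝 0)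

end Pool.PK
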