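import Pool.Agent.H80.PK.GStmts

/-! Row LSN of the board `pkt` (helper17). -/

set_option autoImplicit false

namespace Pool.PK

open MeasureTheory Filter Topology UniformSpace
open scoped Pointwise ENNReal

theorem LSN : LSNStmt := by
  intro G _ _ _ _ _ _ _ μ _ p hp
  have hmem : ∀ f : CG μ, MemLp (f.1 : G → ℂ) p μ := fun f =>
    f.2.1.memLp_of_hasCompactSupport f.2.2
  refine ⟨⟨fun f => ENNReal.toReal_nonneg, fun f g => ?_, fun c f => ?_⟩, hmem⟩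
  · have h1 : eLpNorm ((f.1 : G → ℂ) + g.1) p μ ≤ eLpNorm (f.1 : G → ℂ) p μ +
        eLpNorm (g.1 : G → ℂ) p μ := eLpNorm_add_le (hmem f).1 (hmem g).1 hp
    have h2 := ENNReal.toReal_mono (ENNReal.add_ne_top.2 ⟨(hmem f).2.ne, (hmem g).2.ne⟩) h1
    rw [ENNReal.toReal_add (hmem f).2.ne (hmem g).2.ne] at h2
    exact h2
  · have h1 : eLpNorm (c • (f.1 : G → ℂ)) p μ = ‖c‖ₑ * eLpNorm (f.1 : G → ℂ) p μ :=
      eLpNorm_const_smul c _ _ _
    change (eLpNorm (c • (f.1 : G → ℂ)) p μ).toReal = ‖c‖ * (eLpNorm (f.1 : G → ℂ) p μ).toReal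
    rw [h1, ENNReal.toReal_mul, toReal_enorm]

end Pool.PK
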