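import Pool.Agent.H16.PK.ABO
import Pool.Agent.H1.PK.OPA
import Pool.Agent.H3.PK.UNI
import Pool.Agent.H2.PK.STR
import Pool.Agent.H80.PK.LSN
import Pool.Agent.H22.PK.YNG

/-!
# The Banach algebras of a locally compact group
-/

set_option autoImplicit false

namespace Pool.PK

open MeasureTheory
open scoped ENNReal

section

variable {G : Type} [Group G] [TopologicalSpace G] [IsTopologicalGroup G] [LocallyCompactSpace G]
  [T2Space G] [MeasurableSpace G] [BorelSpace G] (μ : Measure G) [μ.IsHaarMeasure]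

/-- the norm of `L¹(G)` on `C_c(G)` -/
noncomputable def l1S : ASN (CG μ) :=
  ⟨lpn μ 1, (LSN G μ 1 le_rfl).1.2.1, (LSN G μ 1 le_rfl).1.2.2, YNG G μ 1 le_rfl⟩

/-- the norm of `B(L^p(G))` on `C_c(G)` -/
noncomputable def opS (p : ℝ≥0∞) (hp : 1 ≤ p) : ASN (CG μ) :=
  ⟨opn μ p, (OPA LSN YNG G μ p hp).1.2.1, (OPA LSN YNG G μ p hp).1.2.2, (OPA LSN YNG G μ p hp).2.1⟩

/-- the norm `max(‖f‖, ‖f^*‖)`, norms of `B(L^p(G))`, on `C_c(G)` -/
noncomputable def stS (p : ℝ≥0∞) (hp : 1 ≤ p) : ASN (CG μ) :=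
  ⟨fun f => max (opn μ p f) (opn μ p (str f)), (ABO (OPA LSN YNG) STR UNI G μ p hp).1.2.1,
    (ABO (OPA LSN YNG) STR UNI G μ p hp).1.2.2, (ABO (OPA LSN YNG) STR UNI G μ p hp).2.1⟩

/-- `L¹(G)` -/
abbrev L1alg : Type := CP (l1S μ)

/-- `B^p_r(G)` -/
abbrev Bpr (p : ℝ≥0∞) (hp : 1 ≤ p) : Type := CP (opS μ p hp)

/-- `B^{p,*}_r(G)` -/
abbrev Bps (p : ℝ≥0∞) (hp : 1 ≤ p) : Type := CP (stS μ p hp)

end

end Pool.PK
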